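import Pool.Agent.Lib.MP_2347b2_mp.Defs

namespace Pool.Agent.Lib.MP_2347b2_mp

open MeasureTheory Set Filter Topology

/-- a function bounded below by a positive constant near zero has `f / r` not integrable -/
theorem not_integrable_of_ge {f : ℝ → ℝ} {R d : ℝ} (hR : 0 < R) (hd : 0 < d)
    (h : ∀ r ∈ Ioo 0 R, d ≤ |f r|) : ¬ IntegrableOn (fun r => f r / r) (Ioo 0 R) := by
  intro hi
  have h1 : IntegrableOn (fun r : ℝ => r ^ (-1 : ℝ)) (Ioo 0 R) := by
    refine Integrable.mono' ((hi.norm).const_mul d⁻¹) ?_ ?_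
    · exact (measurable_id.pow_const _).aestronglyMeasurable
    · filter_upwards [ae_restrict_mem measurableSet_Ioo] with r hr
      rw [Real.rpow_neg_one, Real.norm_eq_abs, Real.norm_eq_abs, abs_div, abs_of_pos hr.1,
        abs_of_pos (inv_pos.2 hr.1)]
      have h2 := h r hr
      have h3 := hr.1
      rw [div_eq_mul_inv, ← mul_assoc]
      refine le_mul_of_one_le_left (inv_pos.2 h3).le ?_
      rw [← div_eq_inv_mul, le_div_iff₀ hd]
      linarith
  rw [intervalIntegral.integrableOn_Ioo_rpow_iff hR] at h1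
  linarith

/-- a function with nonnegative derivative and `f / r` integrable near zero is nonnegative -/
theorem nonneg_of_deriv' {f f' : ℝ → ℝ} {R : ℝ} (hd : ∀ r, 0 < r → HasDerivAt f (f' r) r)
    (hp : ∀ r ∈ Ioc 0 R, 0 ≤ f' r) (hi : IntegrableOn (fun r => f r / r) (Ioo 0 R)) :
    ∀ r ∈ Ioc 0 R, 0 ≤ f r := by
  have hm : MonotoneOn f (Ioc 0 R) := by
    refine monotoneOn_of_deriv_nonneg (convex_Ioc 0 R)
      (fun r hr => (hd r hr.1).continuousAt.continuousWithinAt)
      (fun r hr => (hd r (interior_subset hr).1).differentiableAt.differentiableWithinAt) ?_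
    intro r hr
    rw [(hd r (interior_subset hr).1).deriv]
    exact hp r (interior_subset hr)
  intro r hr
  by_contra hn
  push Not at hn
  refine not_integrable_of_ge (f := f) hr.1 (neg_pos.2 hn) ?_
    (hi.mono_set (Ioo_subset_Ioo_right hr.2))
  intro t ht
  have := hm ⟨ht.1, ht.2.le.trans hr.2⟩ hr ht.2.le
  exact le_trans (by linarith) (neg_le_abs _)

theorem nonneg_of_deriv {f f' : ℝ → ℝ} {R : ℝ} (hd : ∀ r, 0 < r → HasDerivAt f (f' r) r)
    (hp : ∀ r ∈ Ioc 0 R, 0 ≤ f' r) (hi : IntegrableOn (fun r => f r / r) (Ioi 0)) :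
    ∀ r ∈ Ioc 0 R, 0 ≤ f r :=
  nonneg_of_deriv' hd hp (hi.mono_set Ioo_subset_Ioi_self)

/-- no boundary terms -/
theorem integral_deriv_eq_zero {f f' : ℝ → ℝ} (hd : ∀ r, 0 < r → HasDerivAt f (f' r) r)
    (h1 : IntegrableOn f' (Ioi 0)) (h2 : IntegrableOn f (Ioi 0))
    (h3 : IntegrableOn (fun r => f r / r) (Ioi 0)) : ∫ r in Ioi 0, f' r = 0 := by
  have hz : Tendsto f atTop (𝓝 0) :=
    tendsto_zero_of_hasDerivAt_of_integrableOn_Ioi (a := 0) hd h1 h2
  have e1 : ∀ a, 0 < a → ∫ r in Ioi a, f' r = - f a := fun a ha => by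
    have := integral_Ioi_of_hasDerivAt_of_tendsto (a := a) (hd a ha).continuousAt.continuousWithinAt
      (fun x hx => hd x (ha.trans hx)) (h1.mono_set (Ioi_subset_Ioi ha.le)) hz
    simpa using this
  have e2 : ∀ a, 0 < a → f a = (∫ r in Ioc 0 a, f' r) - ∫ r in Ioi 0, f' r := fun a ha => by
    have := setIntegral_union (μ := volume) (f := f') (s := Ioc 0 a) (t := Ioi a)
      Ioc_disjoint_Ioi_same measurableSet_Ioi (h1.mono_set Ioc_subset_Ioi_self)
      (h1.mono_set (Ioi_subset_Ioi ha.le))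
    rw [Ioc_union_Ioi_eq_Ioi ha.le, e1 a ha] at this
    linarith
  by_contra hne
  set L := ∫ r in Ioi 0, f' r
  have hL : 0 < |L| / 2 := by positivity
  have hc : ContinuousWithinAt (fun a => ∫ r in Ioc 0 a, f' r) (Icc 0 1) 0 :=
    intervalIntegral.continuousOn_primitive
      ((integrableOn_Icc_iff_integrableOn_Ioc).2 (h1.mono_set Ioc_subset_Ioi_self)) 0
      ⟨le_rfl, zero_le_one⟩
  rw [Metric.continuousWithinAt_iff] at hc
  obtain ⟨δ, hδ, hc⟩ := hc _ hL
  refine not_integrable_of_ge (f := f) (R := min δ 1) (by positivity) hL ?_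
    (h3.mono_set Ioo_subset_Ioi_self)
  intro r hr
  have h4 := hc (x := r) ⟨hr.1.le, (hr.2.trans_le (min_le_right _ _)).le⟩
    (by rw [Real.dist_eq, sub_zero, abs_of_pos hr.1]; exact hr.2.trans_le (min_le_left _ _))
  simp only [Ioc_self, setIntegral_empty, dist_zero_right, Real.norm_eq_abs] at h4
  rw [e2 r hr.1]
  have := abs_sub_abs_le_abs_sub L (∫ t in Ioc 0 r, f' t)
  rw [abs_sub_comm] at this
  linarith

/-- admissible functions -/
structure Adm (f : ℝ → ℝ) : Prop where
  cont : ContinuousOn f (Ioi 0)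
  sq : IntegrableOn (fun r => f r ^ 2) (Ioi 0)
  pot : IntegrableOn (fun r => f r ^ 2 / r) (Ioi 0)

theorem Adm.mul {f g : ℝ → ℝ} (hf : Adm f) (hg : Adm g) :
    IntegrableOn (fun r => f r * g r) (Ioi 0) := by
  refine Integrable.mono' (hf.sq.add hg.sq)
    ((hf.cont.mul hg.cont).aestronglyMeasurable measurableSet_Ioi) (Eventually.of_forall fun r => ?_)
  rw [Real.norm_eq_abs, abs_le]
  simp only [Pi.add_apply]
  constructor <;> nlinarith [sq_nonneg (f r + g r), sq_nonneg (f r - g r)]

theorem Adm.mul_div {f g : ℝ → ℝ} (hf : Adm f) (hg : Adm g) :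
    IntegrableOn (fun r => f r * g r / r) (Ioi 0) := by
  refine Integrable.mono' (hf.pot.add hg.pot)
    (((hf.cont.mul hg.cont).div continuousOn_id fun r hr => ne_of_gt hr).aestronglyMeasurable
      measurableSet_Ioi) ?_
  filter_upwards [ae_restrict_mem measurableSet_Ioi] with r hr
  have hr' : (0 : ℝ) < r := hr
  rw [Real.norm_eq_abs, abs_div, abs_of_pos hr']
  simp only [Pi.add_apply]
  rw [← add_div]
  refine div_le_div_of_nonneg_right ?_ hr'.le
  rw [abs_le]
  constructor <;> nlinarith [sq_nonneg (f r + g r), sq_nonneg (f r - g r)]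

theorem Adm.lin {f g : ℝ → ℝ} (hf : Adm f) (hg : Adm g) (a b : ℝ) :
    Adm (fun r => a * f r + b * g r) where
  cont := (continuousOn_const.mul hf.cont).add (continuousOn_const.mul hg.cont)
  sq := by
    refine IntegrableOn.congr_fun (((hf.sq.const_mul (a ^ 2)).add
      ((hf.mul hg).const_mul (2 * a * b))).add (hg.sq.const_mul (b ^ 2))) (fun r _ => ?_)
      measurableSet_Ioi
    simp only [Pi.add_apply]; ring
  pot := by
    refine IntegrableOn.congr_fun (((hf.pot.const_mul (a ^ 2)).add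
      ((hf.mul_div hg).const_mul (2 * a * b))).add (hg.pot.const_mul (b ^ 2))) (fun r _ => ?_)
      measurableSet_Ioi
    simp only [Pi.add_apply]; ring

theorem Adm.eq_zero {f : ℝ → ℝ} (hf : Adm f) (h : ∫ r in Ioi 0, f r ^ 2 = 0) :
    ∀ r, 0 < r → f r = 0 := by
  have h1 := (setIntegral_eq_zero_iff_of_nonneg_ae (Eventually.of_forall fun r => sq_nonneg (f r))
    hf.sq).1 h
  have h2 : EqOn (fun r => f r ^ 2) (fun _ => 0) (Ioi 0) :=
    Measure.eqOn_open_of_ae_eq h1 isOpen_Ioi (hf.cont.pow 2) continuousOn_const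
  intro r hr
  exact pow_eq_zero_iff two_ne_zero |>.1 (h2 hr)

namespace IsRadialEigenfunction

variable {γ κ E : ℝ} {G F : ℝ → ℝ}

theorem contG (h : IsRadialEigenfunction γ κ E G F) : ContinuousOn G (Ioi 0) :=
  fun r hr => (h.upper r hr).continuousAt.continuousWithinAt

theorem contF (h : IsRadialEigenfunction γ κ E G F) : ContinuousOn F (Ioi 0) :=
  fun r hr => (h.lower r hr).continuousAt.continuousWithinAt

theorem intN (h : IsRadialEigenfunction γ κ E G F) :
    IntegrableOn (fun r => G r ^ 2 + F r ^ 2) (Ioi 0) :=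
  Integrable.of_integral_ne_zero (by rw [h.normalized]; exact one_ne_zero)

theorem admG (h : IsRadialEigenfunction γ κ E G F) : Adm G where
  cont := h.contG
  sq := Integrable.mono' h.intN ((h.contG.pow 2).aestronglyMeasurable measurableSet_Ioi)
    (Eventually.of_forall fun r => by
      rw [Real.norm_eq_abs, abs_of_nonneg (sq_nonneg _)]; nlinarith [sq_nonneg (F r)])
  pot := by
    refine Integrable.mono' h.finite_potential (((h.contG.pow 2).div continuousOn_id
      fun r hr => ne_of_gt hr).aestronglyMeasurable measurableSet_Ioi) ?_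
    filter_upwards [ae_restrict_mem measurableSet_Ioi] with r hr
    have hr' : (0 : ℝ) < r := hr
    rw [Real.norm_eq_abs, abs_of_nonneg (by positivity)]
    exact div_le_div_of_nonneg_right (by nlinarith [sq_nonneg (F r)]) hr'.le

theorem admF (h : IsRadialEigenfunction γ κ E G F) : Adm F where
  cont := h.contF
  sq := Integrable.mono' h.intN ((h.contF.pow 2).aestronglyMeasurable measurableSet_Ioi)
    (Eventually.of_forall fun r => by
      rw [Real.norm_eq_abs, abs_of_nonneg (sq_nonneg _)]; nlinarith [sq_nonneg (G r)])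
  pot := by
    refine Integrable.mono' h.finite_potential (((h.contF.pow 2).div continuousOn_id
      fun r hr => ne_of_gt hr).aestronglyMeasurable measurableSet_Ioi) ?_
    filter_upwards [ae_restrict_mem measurableSet_Ioi] with r hr
    have hr' : (0 : ℝ) < r := hr
    rw [Real.norm_eq_abs, abs_of_nonneg (by positivity)]
    exact div_le_div_of_nonneg_right (by nlinarith [sq_nonneg (G r)]) hr'.le

end IsRadialEigenfunction

end Pool.Agent.Lib.MP_2347b2_mp
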