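import Pool.Agent.Lib.MP_2347b2_mp.Slope

namespace Pool.Agent.Lib.MP_2347b2_mp

open MeasureTheory Set Filter Topology

/-- a crude bound for all states of one channel at one point -/
theorem crude (γ κ : ℝ) {r : ℝ} (hr : 0 < r) : ∃ C : ℝ, ∀ {ι : Type} (T : Finset ι) (E : ι → ℝ),
    InjOn E T → (∀ i ∈ T, E i ∈ Ioo (0 : ℝ) 1) → ∀ (G F : ι → ℝ → ℝ),
    (∀ i ∈ T, IsRadialEigenfunction γ κ (E i) (G i) (F i)) →
    ∑ i ∈ T, (G i r ^ 2 + F i r ^ 2) ≤ C := by
  have hab : r ≤ r + 1 := by linarith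
  have hsub : uIcc r (r + 1) ⊆ Ioi 0 := by
    rw [uIcc_of_le hab]; exact fun t ht => hr.trans_le ht.1
  have cw : ContinuousOn (fun t : ℝ => r + 1 - t) (Ioi 0) := by fun_prop
  have cd : ∀ a : ℝ, ContinuousOn (fun t : ℝ => a / t) (Ioi 0) := fun a =>
    continuousOn_const.div continuousOn_id fun t ht => ne_of_gt ht
  have c0 : ContinuousOn (fun _ : ℝ => (0 : ℝ)) (Ioi 0) := continuousOn_const
  have c1 : ContinuousOn (fun t : ℝ => 1 + (r + 1 - t) * (κ / t)) (Ioi 0) :=
    continuousOn_const.add (cw.mul (cd κ))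
  have c2 : ContinuousOn (fun t : ℝ => -((r + 1 - t) * (1 + γ / t))) (Ioi 0) :=
    (cw.mul (continuousOn_const.add (cd γ))).neg
  have c3 : ContinuousOn (fun t : ℝ => (r + 1 - t) * (γ / t - 1)) (Ioi 0) :=
    cw.mul ((cd γ).sub continuousOn_const)
  have c4 : ContinuousOn (fun t : ℝ => 1 - (r + 1 - t) * (κ / t)) (Ioi 0) :=
    continuousOn_const.sub (cw.mul (cd κ))
  refine ⟨2 * (∫ t in r..(r + 1), ((1 + (r + 1 - t) * (κ / t)) ^ 2
      + (-((r + 1 - t) * (1 + γ / t))) ^ 2)) + 2 * (∫ t in r..(r + 1), ((0 : ℝ) ^ 2 + (r + 1 - t) ^ 2))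
    + 2 * (∫ t in r..(r + 1), (((r + 1 - t) * (γ / t - 1)) ^ 2 + (1 - (r + 1 - t) * (κ / t)) ^ 2))
    + 2 * (∫ t in r..(r + 1), ((r + 1 - t) ^ 2 + (0 : ℝ) ^ 2)), ?_⟩
  intro ι T E hE hE1 G F h
  have b1 := bessel T E hE G F h hr hab c1 c2
  have b2 := bessel T E hE G F h hr hab c0 cw
  have b3 := bessel T E hE G F h hr hab c3 c4
  have b4 := bessel T E hE G F h hr hab cw c0
  have key : ∀ i ∈ T, G i r ^ 2 + F i r ^ 2 ≤
      2 * (∫ t in r..(r + 1), ((1 + (r + 1 - t) * (κ / t)) * G i t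
        + -((r + 1 - t) * (1 + γ / t)) * F i t)) ^ 2
      + 2 * (∫ t in r..(r + 1), (0 * G i t + (r + 1 - t) * F i t)) ^ 2
      + 2 * (∫ t in r..(r + 1), ((r + 1 - t) * (γ / t - 1) * G i t
        + (1 - (r + 1 - t) * (κ / t)) * F i t)) ^ 2
      + 2 * (∫ t in r..(r + 1), ((r + 1 - t) * G i t + 0 * F i t)) ^ 2 := by
    intro i hi
    have hG := (h i hi).contG
    have hF := (h i hi).contF
    have ii : ∀ {φ ψ : ℝ → ℝ}, ContinuousOn φ (Ioi 0) → ContinuousOn ψ (Ioi 0) →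
        IntervalIntegrable (fun t => φ t * G i t + ψ t * F i t) volume r (r + 1) :=
      fun hφ hψ => (((hφ.mul hG).add (hψ.mul hF)).mono hsub).intervalIntegrable
    have dw : ∀ t : ℝ, HasDerivAt (fun t : ℝ => -(r + 1 - t)) 1 t := fun t => by
      simpa using ((hasDerivAt_id' t).const_sub (r + 1)).fun_neg
    have e1 := intervalIntegral.integral_eq_sub_of_hasDerivAt
      (f := fun t => -(r + 1 - t) * G i t)
      (f' := fun t => ((1 + (r + 1 - t) * (κ / t)) * G i t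
        + -((r + 1 - t) * (1 + γ / t)) * F i t) - E i * (0 * G i t + (r + 1 - t) * F i t))
      (fun t ht => ((dw t).fun_mul ((h i hi).upper t (hsub ht))).congr_deriv (by ring))
      ((ii c1 c2).sub ((ii c0 cw).const_mul _))
    have e2 := intervalIntegral.integral_eq_sub_of_hasDerivAt
      (f := fun t => -(r + 1 - t) * F i t)
      (f' := fun t => ((r + 1 - t) * (γ / t - 1) * G i t
        + (1 - (r + 1 - t) * (κ / t)) * F i t) + E i * ((r + 1 - t) * G i t + 0 * F i t))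
      (fun t ht => ((dw t).fun_mul ((h i hi).lower t (hsub ht))).congr_deriv (by ring))
      ((ii c3 c4).add ((ii cw c0).const_mul _))
    rw [intervalIntegral.integral_sub (ii c1 c2) ((ii c0 cw).const_mul _),
      intervalIntegral.integral_const_mul] at e1
    rw [intervalIntegral.integral_add (ii c3 c4) ((ii cw c0).const_mul _),
      intervalIntegral.integral_const_mul] at e2
    simp only [sub_self, neg_zero, zero_mul, add_sub_cancel_left, neg_mul, one_mul, zero_sub,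
      neg_neg] at e1 e2 ⊢
    rw [← e1, ← e2]
    have h1 := (hE1 i hi).1
    have h2 := (hE1 i hi).2
    have h3 : E i ^ 2 ≤ 1 := by nlinarith
    have aux : ∀ a b e : ℝ, e ^ 2 ≤ 1 → (a + e * b) ^ 2 ≤ 2 * a ^ 2 + 2 * b ^ 2 := fun a b e he => by
      nlinarith [sq_nonneg (a - e * b), mul_nonneg (sub_nonneg.2 he) (sq_nonneg b)]
    have a1 := fun a b => aux a b (E i) h3
    have a2 := fun a b => aux a b (-E i) (by rwa [neg_sq])
    simp only [neg_mul, ← sub_eq_add_neg] at a2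
    refine (add_le_add (a2 _ _) (a1 _ _)).trans (le_of_eq ?_)
    ring
  refine (Finset.sum_le_sum key).trans ?_
  simp only [Finset.sum_add_distrib, ← Finset.mul_sum]
  exact add_le_add (add_le_add (add_le_add (mul_le_mul_of_nonneg_left b1 two_pos.le)
    (mul_le_mul_of_nonneg_left b2 two_pos.le)) (mul_le_mul_of_nonneg_left b3 two_pos.le))
    (mul_le_mul_of_nonneg_left b4 two_pos.le)

theorem tsum_weight_lt_top (γ κ : ℝ) {r : ℝ} (hr : 0 < r) :
    ∑' E : Ioo (0 : ℝ) 1, radialWeight γ κ E r < ⊤ := by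
  classical
  obtain ⟨C, hC⟩ := crude γ κ hr
  refine lt_of_le_of_lt ?_ (ENNReal.ofReal_lt_top (r := C))
  rw [ENNReal.tsum_eq_iSup_sum]
  refine iSup_le fun T => ?_
  have hch : ∀ E : Ioo (0 : ℝ) 1, ∃ G F : ℝ → ℝ,
      (∃ G F, IsRadialEigenfunction γ κ E G F) → IsRadialEigenfunction γ κ E G F := fun E => by
    by_cases h : ∃ G F, IsRadialEigenfunction γ κ E G F
    · obtain ⟨G, F, h⟩ := h
      exact ⟨G, F, fun _ => h⟩
    · exact ⟨0, 0, fun h' => (h h').elim⟩
  choose G F hGF using hch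
  set T' := T.filter fun E : Ioo (0 : ℝ) 1 => ∃ G F, IsRadialEigenfunction γ κ E G F
  have h1 := hC T' (fun E => (E : ℝ)) (fun _ _ _ _ e => Subtype.ext e) (fun E _ => E.2) G F
    (fun E hE => hGF E (Finset.mem_filter.1 hE).2)
  rw [← Finset.sum_filter_add_sum_filter_not T
    (fun E : Ioo (0 : ℝ) 1 => ∃ G F, IsRadialEigenfunction γ κ E G F),
    Finset.sum_eq_zero (s := T.filter _)
      (fun E hE => weight_eq_zero (Finset.mem_filter.1 hE).2 r), add_zero,
    Finset.sum_congr rfl (fun E hE => (hGF E (Finset.mem_filter.1 hE).2).weight_eq hr),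
    ← ENNReal.ofReal_sum_of_nonneg (fun E _ => by positivity)]
  exact ENNReal.ofReal_le_ofReal h1

namespace Ch

variable {γ k s p q : ℝ}

/-- all regular components of a higher channel together -/
theorem channel (c : Ch γ k s p q) (hk : 2 ≤ k) (hγ1 : γ ≤ 1) {ι : Type} (T : Finset ι)
    (E : ι → ℝ) (hE : InjOn E T) (hE1 : ∀ i ∈ T, E i ∈ Ioo (0 : ℝ) 1) (G F x y : ι → ℝ → ℝ)
    (h : ∀ i ∈ T, IsRadialEigenfunction γ (-k) (E i) (G i) (F i))
    (hl : ∀ i ∈ T, Lad s (γ * E i / s) ((E i * k + s) / s) (-(E i * k - s) / s) (x i) (y i))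
    (hx : ∀ i ∈ T, ∀ r, x i r = p / (2 * s) * G i r + q / (2 * s) * F i r)
    {r : ℝ} (hr : 0 < r) (hρ : γ * r ≤ 1 / 6) :
    ∑ i ∈ T, x i r ^ 2 ≤ 18 / 5 * γ * (2 * k + 1) / k * (2 * (γ * r) / 3) ^ (2 * s) := by
  have hs := c.spos
  have hγ := c.γpos
  have h1 := c.sq_add
  have h2 := c.s_lower hk hγ1
  have hR : r ≤ 3 / (2 * γ) := by rw [le_div_iff₀ (by positivity)]; linarith
  set R := 3 / (2 * γ) with hRd
  have hR0 : 0 < R := by positivity
  have cs : ContinuousOn (fun t : ℝ => t ^ s) (Ioi 0) :=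
    continuousOn_id.rpow_const fun t ht => Or.inl (ne_of_gt ht)
  have b := bessel T E hE G F h hr hR (φ := fun t => t ^ s * (p / (2 * s)))
    (ψ := fun t => t ^ s * (q / (2 * s))) (cs.mul continuousOn_const) (cs.mul continuousOn_const)
  set J := ∫ t in r..R, t ^ (2 * s) with hJ
  have e1 : ∫ t in r..R, ((t ^ s * (p / (2 * s))) ^ 2 + (t ^ s * (q / (2 * s))) ^ 2)
      = k / (2 * s ^ 2) * J := by
    rw [hJ, ← intervalIntegral.integral_const_mul]
    refine intervalIntegral.integral_congr fun t ht => ?_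
    rw [uIcc_of_le hR] at ht
    have : t ^ (2 * s) = (t ^ s) ^ 2 := by
      rw [mul_comm, Real.rpow_mul (hr.le.trans ht.1), Real.rpow_two]
    simp only [this, mul_pow, div_pow, c.hp, c.hq]
    field_simp
    ring
  rw [e1] at b
  have e2 : ∀ i ∈ T, x i r ^ 2 * J ^ 2 ≤ 8 * r ^ (2 * s) *
      (∫ t in r..R, (t ^ s * (p / (2 * s)) * G i t + t ^ s * (q / (2 * s)) * F i t)) ^ 2 := by
    intro i hi
    have := c.functional hk hγ1 (hE1 i hi).1 (hE1 i hi).2.le (hl i hi) hr hR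
    refine this.trans (le_of_eq ?_)
    congr 2
    refine intervalIntegral.integral_congr fun t _ => ?_
    simp only [hx i hi]
    ring
  have p1 : 0 < r ^ (2 * s) := Real.rpow_pos_of_pos hr _
  have e3 := Finset.sum_le_sum e2
  rw [← Finset.sum_mul, ← Finset.mul_sum] at e3
  have e4 := e3.trans (mul_le_mul_of_nonneg_left b (by positivity))
  set τ := 2 * (γ * r) / 3 with hτ
  have τ0 : 0 < τ := by positivity
  have τ1 : τ ≤ 1 / 9 := by linarith
  have er : r = τ * R := by rw [hτ, hRd]; field_simp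
  have p2 : 0 < R ^ (2 * s) := Real.rpow_pos_of_pos hR0 _
  have p3 : 0 < τ ^ (2 * s) := Real.rpow_pos_of_pos τ0 _
  have er2 : r ^ (2 * s) = τ ^ (2 * s) * R ^ (2 * s) := by
    rw [← Real.mul_rpow τ0.le hR0.le, ← er]
  have eJ : J = R ^ (2 * s) * R * (1 - τ ^ (2 * s) * τ) / (2 * s + 1) := by
    rw [hJ, integral_rpow (Or.inl (by linarith)), Real.rpow_add_one hR0.ne',
      Real.rpow_add_one hr.ne', er2]
    congr 1
    linear_combination (-(τ ^ (2 * s) * R ^ (2 * s))) * er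
  have τ2 : τ ^ (2 * s) ≤ τ := by
    have := Real.rpow_le_rpow_of_exponent_ge τ0 (by linarith) (show (1 : ℝ) ≤ 2 * s by linarith)
    rwa [Real.rpow_one] at this
  have τ3 : 80 / 81 ≤ 1 - τ ^ (2 * s) * τ := by nlinarith
  have hsk : s ≤ k := by nlinarith
  have lJ : R ^ (2 * s) * R * (80 / 81) / (2 * k + 1) ≤ J := by
    rw [eJ]
    exact div_le_div₀ (by positivity) (mul_le_mul_of_nonneg_left τ3 (by positivity))
      (by positivity) (by linarith)
  have J0 : 0 < J := lt_of_lt_of_le (by positivity) lJ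
  have e5 : (∑ i ∈ T, x i r ^ 2) * J ≤ 8 * r ^ (2 * s) * (k / (2 * s ^ 2)) := by
    refine le_of_mul_le_mul_right ?_ J0
    calc (∑ i ∈ T, x i r ^ 2) * J * J = (∑ i ∈ T, x i r ^ 2) * J ^ 2 := by ring
      _ ≤ _ := e4
      _ = _ := by ring
  have S0 : 0 ≤ ∑ i ∈ T, x i r ^ 2 := Finset.sum_nonneg fun _ _ => sq_nonneg _
  have e6 : k / (2 * s ^ 2) ≤ 2 / (3 * k) := by
    rw [div_le_div_iff₀ (by positivity) (by positivity)]
    nlinarith
  have e7 := (mul_le_mul_of_nonneg_left lJ S0).trans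
    (e5.trans (mul_le_mul_of_nonneg_left e6 (by positivity)))
  rw [er2] at e7
  have e8 : 0 < R ^ (2 * s) * R * (80 / 81) / (2 * k + 1) := by positivity
  refine le_of_mul_le_mul_right (e7.trans (le_of_eq ?_)) e8
  rw [hRd]
  field_simp
  ring

/-- the ground state -/
theorem ground (c : Ch γ 1 s p q) : ∃ G F, IsRadialEigenfunction γ (-1) s G F ∧
    ∀ r, 0 < r → G r ^ 2 + F r ^ 2
      = 2 * γ * (2 * (γ * r)) ^ (2 * s) * Real.exp (-(2 * γ * r)) / Real.Gamma (2 * s + 1) := by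
  have hs := c.spos
  have hγ := c.γpos
  have hΓ : 0 < Real.Gamma (2 * s + 1) := Real.Gamma_pos_of_pos (by positivity)
  have p0 : 0 < (2 * γ) ^ (2 * s) := Real.rpow_pos_of_pos (by positivity) _
  obtain ⟨C, hC⟩ : ∃ C : ℝ, C ^ 2 = γ * (2 * γ) ^ (2 * s) / Real.Gamma (2 * s + 1) :=
    ⟨Real.sqrt _, Real.sq_sqrt (by positivity)⟩
  have e1 : ∀ r : ℝ, 0 < r → (C * (r ^ s * Real.exp (-(γ * r)))) ^ 2
      = C ^ 2 * (r ^ (2 * s + 1 - 1) * Real.exp (-(2 * γ * r))) := fun r hr => by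
    rw [add_sub_cancel_right, mul_pow, mul_pow, ← Real.rpow_two (r ^ s), ← Real.rpow_mul hr.le,
      sq (Real.exp _), ← Real.exp_add, mul_comm s 2]
    congr 3; ring
  have e2 : ∀ r : ℝ, 0 < r → (C * (r ^ s * Real.exp (-(γ * r)))) ^ 2 / r
      = C ^ 2 * (r ^ (2 * s - 1) * Real.exp (-(2 * γ * r))) := fun r hr => by
    rw [e1 r hr, add_sub_cancel_right, Real.rpow_sub_one hr.ne']
    ring
  have I1 := Real.integral_rpow_mul_exp_neg_mul_Ioi (a := 2 * s + 1) (r := 2 * γ)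
    (by positivity) (by positivity)
  have I2 := Real.integral_rpow_mul_exp_neg_mul_Ioi (a := 2 * s) (r := 2 * γ)
    (by positivity) (by positivity)
  have i1 := Integrable.of_integral_ne_zero (I1.trans_ne (by positivity))
  have i2 := Integrable.of_integral_ne_zero (I2.trans_ne (by
    have := Real.Gamma_pos_of_pos (show 0 < 2 * s by positivity)
    positivity))
  have dx : ∀ r : ℝ, 0 < r → HasDerivAt (fun r : ℝ => C * (r ^ s * Real.exp (-(γ * r))))
      ((s / r - γ * s / s) * (C * (r ^ s * Real.exp (-(γ * r)))) + (s * 1 + s) / s * 0) r :=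
    fun r hr => by
      refine (((Real.hasDerivAt_rpow_const (Or.inl hr.ne')).fun_mul
        ((hasDerivAt_id' r).const_mul γ).fun_neg.exp).const_mul C).congr_deriv ?_
      rw [Real.rpow_sub_one hr.ne']
      field_simp
      ring
  have hl : Lad s (γ * s / s) ((s * 1 + s) / s) (-(s * 1 - s) / s)
      (fun r : ℝ => C * (r ^ s * Real.exp (-(γ * r)))) (fun _ => 0) :=
    ⟨dx, fun r _ => (hasDerivAt_const r (0 : ℝ)).congr_deriv (by simp),
      ⟨fun r hr => (dx r hr).continuousAt.continuousWithinAt,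
        IntegrableOn.congr_fun (i1.const_mul (C ^ 2)) (fun r hr => (e1 r hr).symm) measurableSet_Ioi,
        IntegrableOn.congr_fun (i2.const_mul (C ^ 2)) (fun r hr => (e2 r hr).symm)
          measurableSet_Ioi⟩,
      ⟨continuousOn_const, by simp, by simp⟩⟩
  obtain ⟨G, F, h, hN⟩ := c.lad_minus hl (by
    rw [setIntegral_congr_fun measurableSet_Ioi (fun r hr => e1 r hr), integral_const_mul, I1, hC,
      one_div, Real.inv_rpow (by positivity), Real.rpow_add_one (by positivity)]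
    simp only [ne_eq, OfNat.ofNat_ne_zero, not_false_eq_true, zero_pow, integral_zero, mul_zero,
      add_zero]
    field_simp)
  refine ⟨G, F, h, fun r hr => ?_⟩
  rw [hN, e1 r hr, hC, add_sub_cancel_right, ← mul_assoc 2 γ r,
    Real.mul_rpow (by positivity) hr.le]
  field_simp
  ring

end Ch

end Pool.Agent.Lib.MP_2347b2_mp
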