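import Mathlib

/-!
The hydrogenic density of the Furry model, written through the partial-wave decomposition of the
Coulomb-Dirac operator.
-/

namespace Pool.Agent.Lib.MP_2347b2_mp

open MeasureTheory Set
open scoped ENNReal

/-- `(G, F)` is a normalized eigenfunction, with eigenvalue `E`, of the radial Coulomb-Dirac
operator in the channel `κ`, in the distinguished realisation (finite potential energy). -/
structure IsRadialEigenfunction (γ κ E : ℝ) (G F : ℝ → ℝ) : Prop where
  upper : ∀ r : ℝ, 0 < r → HasDerivAt G (-(κ / r) * G r + (E + 1 + γ / r) * F r) r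
  lower : ∀ r : ℝ, 0 < r → HasDerivAt F (κ / r * F r - (E - 1 + γ / r) * G r) r
  finite_potential : IntegrableOn (fun r => (G r ^ 2 + F r ^ 2) / r) (Ioi 0)
  normalized : ∫ r in Ioi (0 : ℝ), (G r ^ 2 + F r ^ 2) = 1

/-- The value `G r ^ 2 + F r ^ 2` for a normalized radial eigenfunction with data `κ, E`
(it is unique up to sign), and `0` if `E` is not an eigenvalue in the channel `κ`. -/
noncomputable def radialWeight (γ κ E r : ℝ) : ℝ≥0∞ :=
  ⨆ (G : ℝ → ℝ) (F : ℝ → ℝ) (_ : IsRadialEigenfunction γ κ E G F),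
    ENNReal.ofReal (G r ^ 2 + F r ^ 2)

/-- The Furry hydrogenic density at distance `r` from the nucleus: all eigenvalues `E` in `(0, 1)`
in all channels `κ`, each with multiplicity `2 |κ|`. -/
noncomputable def furryDensity (γ r : ℝ) : ℝ≥0∞ :=
  ∑' (κ : ℤ) (E : Ioo (0 : ℝ) 1),
    ENNReal.ofReal (2 * |(κ : ℝ)| / (4 * Real.pi * r ^ 2)) * radialWeight γ κ E r

end Pool.Agent.Lib.MP_2347b2_mp
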