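import Pool.Agent.Lib.MP_2347b2_mp.Channel

namespace Pool.Agent.Lib.MP_2347b2_mp

open MeasureTheory Set Filter Topology
open scoped ENNReal

/-- the exponent of a channel -/
noncomputable def sOf (γ k : ℝ) : ℝ := Real.sqrt (k ^ 2 - γ ^ 2)

theorem chOf {γ k : ℝ} (hγ : 0 < γ) (hk : γ < k) :
    Ch γ k (sOf γ k) (Real.sqrt (k + sOf γ k)) (Real.sqrt (k - sOf γ k)) := by
  have h0 : 0 < k ^ 2 - γ ^ 2 := by nlinarith
  have h1 : 0 < sOf γ k := Real.sqrt_pos.2 h0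
  have h2 : sOf γ k ^ 2 = k ^ 2 - γ ^ 2 := Real.sq_sqrt h0.le
  have h3 : sOf γ k ≤ k := by nlinarith
  refine ⟨hγ, h1, Real.sq_sqrt (by linarith), Real.sq_sqrt (by linarith), ?_⟩
  rw [← Real.sqrt_mul (by linarith), show (k + sOf γ k) * (k - sOf γ k) = γ ^ 2 by linarith,
    Real.sqrt_sq hγ.le]

/-- the data attached to a pair of channels and an energy -/
structure Data (γ k s p q E : ℝ) (G F x y : ℝ → ℝ) : Prop where
  yes : (∃ G F, IsRadialEigenfunction γ (-k) E G F) → IsRadialEigenfunction γ (-k) E G F ∧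
    Lad s (γ * E / s) ((E * k + s) / s) (-(E * k - s) / s) x y ∧
    (∀ r, x r = p / (2 * s) * G r + q / (2 * s) * F r) ∧ 0 ≤ E * k - s ∧
    (E * k - s = 0 → ∀ r, 0 < r → y r = 0) ∧
    ∀ r, 0 < r → G r ^ 2 + F r ^ 2 ≤ pairD γ k s E x y r
  no : (¬ ∃ G F, IsRadialEigenfunction γ (-k) E G F) → x = 0 ∧ y = 0
  nonneg : ∀ r, 0 < r → 0 ≤ pairD γ k s E x y r
  weight : ∀ r, 0 < r →
    radialWeight γ (-k) E r + radialWeight γ k E r = ENNReal.ofReal (pairD γ k s E x y r)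
  deriv : ∀ r, 0 < r →
    HasDerivAt (fun r => pairD γ k s E x y r / r ^ 2) (pairS γ k s E x y r / r ^ 2) r

theorem Ch.data {γ k s p q E : ℝ} (c : Ch γ k s p q) (hE : 0 < E) :
    ∃ G F x y, Data γ k s p q E G F x y := by
  by_cases h : ∃ G F, IsRadialEigenfunction γ (-k) E G F
  · obtain ⟨G, F, h'⟩ := h
    obtain ⟨x, y, hl, hx, hB, hy, hw⟩ := c.pair hE h'
    exact ⟨G, F, x, y, fun _ => ⟨h', hl, hx, hB, hy, fun r hr => (hw r hr).2.1⟩,
      fun hn => (hn ⟨G, F, h'⟩).elim, fun r hr => (hw r hr).1, fun r hr => (hw r hr).2.2,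
      c.pair_deriv hE hl hy⟩
  · refine ⟨0, 0, 0, 0, fun h' => (h h').elim, fun _ => ⟨rfl, rfl⟩, fun r _ => by simp [pairD],
      fun r _ => ?_, fun r _ => ?_⟩
    · rw [weight_eq_zero h, weight_eq_zero]
      · simp [pairD]
      · rintro ⟨G, F, h'⟩
        exact h (c.minus_of_plus hE h')
    · simpa [pairD, pairS] using hasDerivAt_const r (0 : ℝ)

theorem poly_le (n : ℕ) : ((n : ℝ) + 1) * n * (2 * (n + 1) + 1) ≤ 2 * 5 ^ n := by
  induction n with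
  | zero => norm_num
  | succ n ih =>
    rcases Nat.eq_zero_or_pos n with rfl | h
    · norm_num
    · have h1 : (1 : ℝ) ≤ n := by exact_mod_cast h
      rw [pow_succ]
      push_cast
      nlinarith [mul_nonneg (sub_nonneg.2 h1) (sub_nonneg.2 h1), mul_nonneg (sub_nonneg.2 h1)
        (mul_nonneg (sub_nonneg.2 h1) (sub_nonneg.2 h1))]

theorem geom_le {w : ℝ} (h0 : 0 ≤ w) (h1 : w ≤ 5 / 81) (P : Finset ℕ) :
    ∑ n ∈ P.erase 0, w ^ n ≤ 81 / 76 * w := by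
  have h2 : w < 1 := by linarith
  have h3 := (summable_geometric_of_lt_one h0 h2).sum_le_tsum (insert 0 (P.erase 0))
    (fun n _ => pow_nonneg h0 n)
  rw [Finset.sum_insert (Finset.notMem_erase 0 P), tsum_geometric_of_lt_one h0 h2, pow_zero] at h3
  have h4 : (1 - w)⁻¹ ≤ 1 + 81 / 76 * w := by
    rw [inv_le_iff_one_le_mul₀ (by linarith)]
    nlinarith
  linarith

theorem s_gap {γ : ℝ} (h0 : 0 < γ) (h1 : γ < 1) (n : ℕ) :
    sOf γ 1 + n ≤ sOf γ (n + 1) := by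
  have c := chOf h0 h1
  have a1 := c.sq_add
  have a2 := c.spos
  have hn : (0 : ℝ) ≤ n := Nat.cast_nonneg n
  have a3 : sOf γ 1 ≤ 1 := by nlinarith
  refine Real.le_sqrt_of_sq_le ?_
  nlinarith

section

variable {γ : ℝ} (h0 : 0 < γ) (h1 : γ < 1) {G F x y : ℕ → Ioo (0 : ℝ) 1 → ℝ → ℝ}
  (hD : ∀ (n : ℕ) (E : Ioo (0 : ℝ) 1), Data γ (n + 1) (sOf γ (n + 1))
    (Real.sqrt (n + 1 + sOf γ (n + 1))) (Real.sqrt (n + 1 - sOf γ (n + 1))) E
    (G n E) (F n E) (x n E) (y n E))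

include h0 h1 hD

theorem sum_x_le {n : ℕ} (hn : n ≠ 0) (T : Finset (Ioo (0 : ℝ) 1)) {r : ℝ} (hr : 0 < r)
    (hρ : γ * r ≤ 1 / 6) : ∑ E ∈ T, x n E r ^ 2 ≤ 18 / 5 * γ * (2 * (n + 1) + 1) / (n + 1)
      * ((2 * (γ * r) / 3) ^ (2 * sOf γ 1) * ((2 * (γ * r) / 3) ^ 2) ^ n) := by
  classical
  have hn1 : (1 : ℝ) ≤ n := by exact_mod_cast Nat.pos_of_ne_zero hn
  have c := chOf h0 (show γ < n + 1 by linarith)
  have key := c.channel (by linarith) h1.le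
    (T.filter fun E : Ioo (0 : ℝ) 1 => ∃ G F, IsRadialEigenfunction γ (-(n + 1)) E G F)
    (fun E => (E : ℝ)) (fun _ _ _ _ e => Subtype.ext e) (fun E _ => E.2) (G n) (F n) (x n) (y n)
    (fun E hE => ((hD n E).yes (Finset.mem_filter.1 hE).2).1)
    (fun E hE => ((hD n E).yes (Finset.mem_filter.1 hE).2).2.1)
    (fun E hE => ((hD n E).yes (Finset.mem_filter.1 hE).2).2.2.1) hr hρ
  rw [← Finset.sum_filter_add_sum_filter_not T
    (fun E : Ioo (0 : ℝ) 1 => ∃ G F, IsRadialEigenfunction γ (-(n + 1)) E G F),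
    Finset.sum_eq_zero (s := T.filter fun E : Ioo (0 : ℝ) 1 => ¬ _)
      (fun E hE => by simp [((hD n E).no (Finset.mem_filter.1 hE).2).1]), add_zero]
  refine key.trans (mul_le_mul_of_nonneg_left ?_ (by positivity))
  have τ0 : 0 < 2 * (γ * r) / 3 := by positivity
  rw [← pow_mul, ← Real.rpow_natCast, ← Real.rpow_add τ0]
  refine Real.rpow_le_rpow_of_exponent_ge τ0 (by linarith) ?_
  have := s_gap h0 h1 n
  push_cast
  linarith

theorem slope_sum_high {n : ℕ} (hn : n ≠ 0) (T : Finset (Ioo (0 : ℝ) 1)) {r : ℝ} (hr : 0 < r)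
    (hρ : γ * r ≤ 1 / 6) :
    ∑ E ∈ T, 2 * ((n : ℝ) + 1) * pairS γ (n + 1) (sOf γ (n + 1)) E (x n E) (y n E) r
      ≤ 288 / 5 * (γ / r) * (2 * (γ * r) / 3) ^ (2 * sOf γ 1)
        * (5 * (2 * (γ * r) / 3) ^ 2) ^ n := by
  have hn1 : (1 : ℝ) ≤ n := by exact_mod_cast Nat.pos_of_ne_zero hn
  have c := chOf h0 (show γ < n + 1 by linarith)
  have a1 : ∀ E ∈ T, 2 * ((n : ℝ) + 1) * pairS γ (n + 1) (sOf γ (n + 1)) E (x n E) (y n E) r
      ≤ 8 * (n + 1) ^ 2 * n / r * x n E r ^ 2 := by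
    intro E _
    by_cases h : ∃ G F, IsRadialEigenfunction γ (-(n + 1)) E G F
    · obtain ⟨-, -, -, hB, hy, -⟩ := (hD n E).yes h
      have := c.slope_high (x := x n E) (by linarith) h1.le E.2.2.le hB hy hr (by linarith)
      refine (mul_le_mul_of_nonneg_left this (by positivity)).trans (le_of_eq ?_)
      ring
    · simp [((hD n E).no h).1, ((hD n E).no h).2, pairS]
  refine (Finset.sum_le_sum a1).trans ?_
  rw [← Finset.mul_sum]
  refine (mul_le_mul_of_nonneg_left (sum_x_le h0 h1 hD hn T hr hρ) (by positivity)).trans ?_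
  have p1 : 0 < (2 * (γ * r) / 3) ^ (2 * sOf γ 1) := Real.rpow_pos_of_pos (by positivity) _
  have := mul_le_mul_of_nonneg_left (poly_le n) (show 0 ≤ 144 / 5 * (γ / r)
    * (2 * (γ * r) / 3) ^ (2 * sOf γ 1) * ((2 * (γ * r) / 3) ^ 2) ^ n by positivity)
  rw [mul_pow 5]
  refine le_trans (le_of_eq ?_) (this.trans (le_of_eq ?_))
  · field_simp; ring
  · ring

theorem slope_sum_low (T : Finset (Ioo (0 : ℝ) 1)) (E₁ : Ioo (0 : ℝ) 1) (hE₁ : E₁.1 = sOf γ 1)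
    (hT : E₁ ∈ T) {r : ℝ} (hr : 0 < r) (hρ : γ * r ≤ 1 / 6) :
    ∑ E ∈ T, 2 * (((0 : ℕ) : ℝ) + 1)
        * pairS γ ((0 : ℕ) + 1) (sOf γ ((0 : ℕ) + 1)) E (x 0 E) (y 0 E) r
      ≤ -24 * γ ^ 2 * (2 * (γ * r) / 3) ^ (2 * sOf γ 1) := by
  classical
  have c := chOf h0 h1
  have hD0 := hD 0
  simp only [Nat.cast_zero, zero_add] at hD0 ⊢
  set s := sOf γ 1
  have hs := c.spos
  have hs1 : s ≤ 1 := by nlinarith [c.sq_add]
  have a1 : ∀ E ∈ T.erase E₁, 2 * 1 * pairS γ 1 s E (x 0 E) (y 0 E) r ≤ 0 := by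
    intro E _
    by_cases h : ∃ G F, IsRadialEigenfunction γ (-1) E G F
    · obtain ⟨-, -, -, hB, hy, -⟩ := (hD0 E).yes h
      have := c.slope_one (x := x 0 E) hB hy hr (by linarith)
      linarith
    · simp [((hD0 E).no h).1, ((hD0 E).no h).2, pairS]
  rw [← Finset.add_sum_erase T _ hT]
  have a2 := Finset.sum_nonpos a1
  obtain ⟨G₁, F₁, hg, hN⟩ := c.ground
  have d := hD0 E₁
  rw [hE₁] at d ⊢
  obtain ⟨he, -, -, -, hy, hle⟩ := d.yes ⟨G₁, F₁, hg⟩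
  have a3 := hle r hr
  rw [hg.unique he r hr, hN r hr] at a3
  rw [c.slope_ground (hy (by ring)) hr]
  have ρ0 : 0 < γ * r := by positivity
  have τ0 : 0 < 2 * (γ * r) / 3 := by positivity
  have hΓ : 0 < Real.Gamma (2 * s + 1) := Real.Gamma_pos_of_pos (by positivity)
  have b1 : Real.Gamma (2 * s + 1) ≤ 2 ^ s := by
    rcases hs1.eq_or_lt with h | h
    · rw [h]; norm_num [Real.Gamma_ofNat_eq_factorial]
    · have := Real.Gamma_mul_add_mul_le_rpow_Gamma_mul_rpow_Gamma (s := 1) (t := 3) (a := 1 - s)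
        (b := s) one_pos (by norm_num) (by linarith) hs (by ring)
      rw [show (1 - s) * 1 + s * 3 = 2 * s + 1 by ring, Real.Gamma_one, Real.one_rpow, one_mul]
        at this
      refine this.trans (le_of_eq ?_)
      norm_num [Real.Gamma_ofNat_eq_factorial]
  have b2 : (2 * (γ * r)) ^ (2 * s) = (9 / 2) ^ s * 2 ^ s * (2 * (γ * r) / 3) ^ (2 * s) := by
    rw [← Real.mul_rpow (by norm_num) (by norm_num), show (9 / 2 * 2 : ℝ) = 3 ^ (2 : ℝ) by norm_num,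
      ← Real.rpow_mul (by norm_num), ← Real.mul_rpow (by norm_num) τ0.le]
    congr 1; ring
  have b3 : (9 / 2 : ℝ) ≤ (9 / 2) ^ s * (1 + 6 * (1 - s)) := by
    have e1 := rpow_one_add_le_one_add_mul_self (s := 7 / 2) (by norm_num) (p := 1 - s)
      (by linarith) (by linarith)
    have e2 : (9 / 2 : ℝ) = (9 / 2) ^ s * (1 + 7 / 2) ^ (1 - s) := by
      rw [show (1 + 7 / 2 : ℝ) = 9 / 2 by norm_num, ← Real.rpow_add (by norm_num)]; simp
    refine e2.le.trans (mul_le_mul_of_nonneg_left (by linarith) (by positivity))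
  have b4 : 2 / 3 ≤ Real.exp (-(2 * γ * r)) := by
    have := Real.add_one_le_exp (-(2 * γ * r)); linarith
  have b5 : γ * (1 + 6 * (1 - s)) ≤ (1 - s) / r + γ := by
    have : γ * (6 * (1 - s)) ≤ (1 - s) / r := by
      rw [le_div_iff₀ hr]; nlinarith
    linarith
  have p1 : 0 < (2 * (γ * r) / 3) ^ (2 * s) := Real.rpow_pos_of_pos τ0 _
  have p2 : (0 : ℝ) < (9 / 2) ^ s := by positivity
  have b6 : 2 * γ * ((9 / 2) ^ s * (2 * (γ * r) / 3) ^ (2 * s)) * (2 / 3)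
      ≤ pairD γ 1 s s (x 0 E₁) (y 0 E₁) r := by
    refine le_trans ?_ a3
    rw [b2, le_div_iff₀ hΓ]
    calc 2 * γ * ((9 / 2) ^ s * (2 * (γ * r) / 3) ^ (2 * s)) * (2 / 3) * Real.Gamma (2 * s + 1)
        ≤ 2 * γ * ((9 / 2) ^ s * (2 * (γ * r) / 3) ^ (2 * s)) * Real.exp (-(2 * γ * r)) * 2 ^ s := by
          gcongr
      _ = _ := by ring
  have b7 := mul_le_mul b5 b6 (by positivity) (by
    have : 0 ≤ 1 - s := by linarith
    positivity)
  have b8 := mul_le_mul_of_nonneg_left b3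
    (show 0 ≤ 4 / 3 * γ ^ 2 * (2 * (γ * r) / 3) ^ (2 * s) by positivity)
  refine (add_le_of_nonpos_right a2).trans ?_
  generalize (2 * (γ * r) / 3) ^ (2 * s) = u at b7 b8 ⊢
  generalize (9 / 2 : ℝ) ^ s = v at b7 b8
  generalize pairD γ 1 s s (x 0 E₁) (y 0 E₁) r = w at b7 ⊢
  linarith

theorem finite_antitone (P : Finset ℕ) (hP : 0 ∈ P) (T : Finset (Ioo (0 : ℝ) 1))
    (E₁ : Ioo (0 : ℝ) 1) (hE₁ : E₁.1 = sOf γ 1) (hT : E₁ ∈ T) :
    MonotoneOn (fun r => -∑ n ∈ P, ∑ E ∈ T, 2 * ((n : ℝ) + 1)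
      * (pairD γ (n + 1) (sOf γ (n + 1)) E (x n E) (y n E) r / r ^ 2)) (Ioc 0 (1 / (6 * γ))) := by
  refine monotoneOn_Ioc (f' := fun r => -∑ n ∈ P, ∑ E ∈ T, 2 * ((n : ℝ) + 1)
      * (pairS γ (n + 1) (sOf γ (n + 1)) E (x n E) (y n E) r / r ^ 2))
    (fun r hr => (HasDerivAt.fun_sum fun n _ => HasDerivAt.fun_sum fun E _ =>
      ((hD n E).deriv r hr).const_mul _).fun_neg) (fun r hr => ?_)
  have hr0 := hr.1
  have hρ : γ * r ≤ 1 / 6 := by
    have := hr.2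
    rw [le_div_iff₀ (by positivity)] at this
    linarith
  simp only [← mul_div_assoc, ← Finset.sum_div]
  rw [neg_nonneg]
  refine div_nonpos_of_nonpos_of_nonneg ?_ (sq_nonneg r)
  rw [← Finset.add_sum_erase P _ hP]
  have a1 := slope_sum_low h0 h1 hD T E₁ hE₁ hT hr0 hρ
  have a2 := Finset.sum_le_sum fun n (hn : n ∈ P.erase 0) =>
    slope_sum_high h0 h1 hD (Finset.ne_of_mem_erase hn) T hr0 hρ
  rw [← Finset.mul_sum] at a2
  have ρ0 : 0 < γ * r := by positivity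
  have p1 : 0 < (2 * (γ * r) / 3) ^ (2 * sOf γ 1) := Real.rpow_pos_of_pos (by positivity) _
  have a3 := mul_le_mul_of_nonneg_left (geom_le (w := 5 * (2 * (γ * r) / 3) ^ 2) (by positivity)
    (by nlinarith) P) (show 0 ≤ 288 / 5 * (γ / r) * (2 * (γ * r) / 3) ^ (2 * sOf γ 1) by positivity)
  have e : 288 / 5 * (γ / r) * (2 * (γ * r) / 3) ^ (2 * sOf γ 1)
      * (81 / 76 * (5 * (2 * (γ * r) / 3) ^ 2))
      = 2592 / 19 * (γ * r) * (γ ^ 2 * (2 * (γ * r) / 3) ^ (2 * sOf γ 1)) := by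
    field_simp; ring
  rw [e] at a3
  have a4 := mul_le_mul_of_nonneg_right (show 2592 / 19 * (γ * r) ≤ 24 by linarith)
    (show 0 ≤ γ ^ 2 * (2 * (γ * r) / 3) ^ (2 * sOf γ 1) by positivity)
  exact (add_le_add a1 (a2.trans (a3.trans a4))).trans (le_of_eq (by ring))

theorem pairD_sum_high {n : ℕ} (hn : n ≠ 0) (T : Finset (Ioo (0 : ℝ) 1)) {r : ℝ} (hr : 0 < r)
    (hρ : γ * r ≤ 1 / 6) :
    ∑ E ∈ T, 2 * ((n : ℝ) + 1) * pairD γ (n + 1) (sOf γ (n + 1)) E (x n E) (y n E) r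
      ≤ 260 * γ * (2 * (γ * r) / 3) ^ (2 * sOf γ 1) * (5 * (2 * (γ * r) / 3) ^ 2) ^ n := by
  have hn1 : (1 : ℝ) ≤ n := by exact_mod_cast Nat.pos_of_ne_zero hn
  have c := chOf h0 (show γ < n + 1 by linarith)
  have a1 : ∀ E ∈ T, 2 * ((n : ℝ) + 1) * pairD γ (n + 1) (sOf γ (n + 1)) E (x n E) (y n E) r
      ≤ 18 * (n + 1) ^ 3 * x n E r ^ 2 := by
    intro E _
    by_cases h : ∃ G F, IsRadialEigenfunction γ (-(n + 1)) E G F
    · obtain ⟨-, hl, -, hB, -, -⟩ := (hD n E).yes h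
      have := c.pairD_le (by linarith) h1.le E.2.1 E.2.2.le hl hB hr (by linarith)
      refine (mul_le_mul_of_nonneg_left this (by positivity)).trans (le_of_eq ?_)
      ring
    · simp [((hD n E).no h).1, ((hD n E).no h).2, pairD]
  refine (Finset.sum_le_sum a1).trans ?_
  rw [← Finset.mul_sum]
  refine (mul_le_mul_of_nonneg_left (sum_x_le h0 h1 hD hn T hr hρ) (by positivity)).trans ?_
  have p1 : 0 < (2 * (γ * r) / 3) ^ (2 * sOf γ 1) := Real.rpow_pos_of_pos (by positivity) _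
  have a2 : ((n : ℝ) + 1) ^ 2 * (2 * (n + 1) + 1) ≤ 4 * 5 ^ n := by
    have := poly_le n
    nlinarith [mul_nonneg (sub_nonneg.2 hn1) (show (0 : ℝ) ≤ (n + 1) * (2 * (n + 1) + 1) by positivity)]
  have := mul_le_mul_of_nonneg_left a2 (show 0 ≤ 324 / 5 * γ
    * (2 * (γ * r) / 3) ^ (2 * sOf γ 1) * ((2 * (γ * r) / 3) ^ 2) ^ n by positivity)
  rw [mul_pow 5]
  refine le_trans (le_of_eq ?_) (this.trans ?_)
  · field_simp; ring
  · have : 0 ≤ γ * (2 * (γ * r) / 3) ^ (2 * sOf γ 1) * (5 ^ n * ((2 * (γ * r) / 3) ^ 2) ^ n) := by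
      positivity
    nlinarith

end

theorem density_eq (γ r : ℝ) : furryDensity γ r = ∑' (n : ℕ) (E : Ioo (0 : ℝ) 1),
    ENNReal.ofReal (2 * ((n : ℝ) + 1) / (4 * Real.pi * r ^ 2))
      * (radialWeight γ (-(n + 1)) E r + radialWeight γ (n + 1) E r) := by
  rw [furryDensity, tsum_of_nat_of_neg_add_one ENNReal.summable ENNReal.summable,
    tsum_eq_zero_add' ENNReal.summable]
  simp only [Nat.cast_zero, Int.cast_zero, abs_zero, mul_zero, zero_div, ENNReal.ofReal_zero,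
    zero_mul, tsum_zero, zero_add, mul_add, ENNReal.tsum_add]
  rw [add_comm]
  congr 1
  · refine tsum_congr fun n => tsum_congr fun E => ?_
    push_cast
    rw [abs_neg, abs_of_nonneg (by positivity), mul_add]
  · refine tsum_congr fun n => tsum_congr fun E => ?_
    push_cast
    rw [abs_of_nonneg (by positivity), mul_add]

theorem density_eq' {γ : ℝ} {G F x y : ℕ → Ioo (0 : ℝ) 1 → ℝ → ℝ}
    (hD : ∀ (n : ℕ) (E : Ioo (0 : ℝ) 1), Data γ (n + 1) (sOf γ (n + 1))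
      (Real.sqrt (n + 1 + sOf γ (n + 1))) (Real.sqrt (n + 1 - sOf γ (n + 1))) E
      (G n E) (F n E) (x n E) (y n E)) {r : ℝ} (hr : 0 < r) :
    furryDensity γ r = ∑' i : ℕ × Ioo (0 : ℝ) 1, ENNReal.ofReal ((4 * Real.pi)⁻¹ *
      (2 * ((i.1 : ℝ) + 1)
        * (pairD γ (i.1 + 1) (sOf γ (i.1 + 1)) i.2 (x i.1 i.2) (y i.1 i.2) r / r ^ 2))) := by
  rw [density_eq, ENNReal.tsum_prod']
  refine tsum_congr fun n => tsum_congr fun E => ?_
  rw [(hD n E).weight r hr, ← ENNReal.ofReal_mul (by positivity)]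
  congr 1
  have := Real.pi_pos
  field_simp

theorem exists_data {γ : ℝ} (h0 : 0 < γ) (h1 : γ < 1) :
    ∃ G F x y : ℕ → Ioo (0 : ℝ) 1 → ℝ → ℝ, ∀ (n : ℕ) (E : Ioo (0 : ℝ) 1),
      Data γ (n + 1) (sOf γ (n + 1)) (Real.sqrt (n + 1 + sOf γ (n + 1)))
        (Real.sqrt (n + 1 - sOf γ (n + 1))) E (G n E) (F n E) (x n E) (y n E) := by
  have := fun (n : ℕ) (E : Ioo (0 : ℝ) 1) =>
    (chOf h0 (show γ < n + 1 by linarith [(Nat.cast_nonneg n : (0 : ℝ) ≤ n)])).data E.2.1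
  choose G F x y h using this
  exact ⟨G, F, x, y, h⟩

theorem near_antitone {γ : ℝ} (h0 : 0 < γ) (h1 : γ < 1) :
    AntitoneOn (furryDensity γ) (Ioc 0 (1 / (6 * γ))) := by
  classical
  obtain ⟨G, F, x, y, hD⟩ := exists_data h0 h1
  have c := chOf h0 h1
  have hs : sOf γ 1 < 1 := by nlinarith [c.sq_add, c.spos]
  intro a ha b hb hab
  rw [density_eq' hD ha.1, density_eq' hD hb.1, ENNReal.tsum_eq_iSup_sum]
  refine iSup_le fun J => ?_
  set P := insert 0 (J.image Prod.fst)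
  set T := insert (⟨sOf γ 1, c.spos, hs⟩ : Ioo (0 : ℝ) 1) (J.image Prod.snd)
  have hJ : J ⊆ P ×ˢ T := Finset.subset_product.trans
    (Finset.product_subset_product (Finset.subset_insert _ _) (Finset.subset_insert _ _))
  refine (Finset.sum_le_sum_of_subset hJ).trans (le_trans ?_ (ENNReal.sum_le_tsum (P ×ˢ T)))
  have nn : ∀ r, 0 < r → ∀ i ∈ P ×ˢ T, 0 ≤ (4 * Real.pi)⁻¹ * (2 * ((i.1 : ℝ) + 1)
      * (pairD γ (i.1 + 1) (sOf γ (i.1 + 1)) i.2 (x i.1 i.2) (y i.1 i.2) r / r ^ 2)) :=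
    fun r hr i _ => by
      have := (hD i.1 i.2).nonneg r hr
      positivity
  rw [← ENNReal.ofReal_sum_of_nonneg (nn a ha.1), ← ENNReal.ofReal_sum_of_nonneg (nn b hb.1),
    ← Finset.mul_sum, ← Finset.mul_sum, Finset.sum_product, Finset.sum_product]
  refine ENNReal.ofReal_le_ofReal (mul_le_mul_of_nonneg_left ?_ (by positivity))
  exact neg_le_neg_iff.1 (finite_antitone h0 h1 hD P (Finset.mem_insert_self _ _) T _ rfl
    (Finset.mem_insert_self _ _) ha hb hab)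

theorem near_finite {γ : ℝ} (h0 : 0 < γ) (h1 : γ < 1) {r : ℝ} (hr : r ∈ Ioc 0 (1 / (6 * γ))) :
    furryDensity γ r < ⊤ := by
  classical
  obtain ⟨G, F, x, y, hD⟩ := exists_data h0 h1
  have hr0 := hr.1
  have hρ : γ * r ≤ 1 / 6 := by
    have := hr.2
    rw [le_div_iff₀ (by positivity)] at this
    linarith
  have ρ0 : 0 < γ * r := by positivity
  have p1 : 0 < (2 * (γ * r) / 3) ^ (2 * sOf γ 1) := Real.rpow_pos_of_pos (by positivity) _
  rw [density_eq, tsum_eq_zero_add' ENNReal.summable]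
  refine ENNReal.add_lt_top.2 ⟨?_, ?_⟩
  · rw [ENNReal.tsum_mul_left, ENNReal.tsum_add]
    exact ENNReal.mul_lt_top ENNReal.ofReal_lt_top
      (ENNReal.add_lt_top.2 ⟨tsum_weight_lt_top _ _ hr0, tsum_weight_lt_top _ _ hr0⟩)
  · have hw : 5 * (2 * (γ * r) / 3) ^ 2 < 1 := by nlinarith
    have hsum := ((summable_nat_add_iff 1).2 (summable_geometric_of_lt_one (by positivity) hw)).mul_left
      ((4 * Real.pi * r ^ 2)⁻¹ * (260 * γ * (2 * (γ * r) / 3) ^ (2 * sOf γ 1)))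
    refine lt_of_le_of_lt (ENNReal.tsum_le_tsum fun n => ?_) hsum.tsum_ofReal_lt_top
    rw [ENNReal.tsum_eq_iSup_sum]
    refine iSup_le fun T => ?_
    have e : ∀ E ∈ T, ENNReal.ofReal (2 * (((n + 1 : ℕ) : ℝ) + 1) / (4 * Real.pi * r ^ 2))
        * (radialWeight γ (-((n + 1 : ℕ) + 1)) E r + radialWeight γ ((n + 1 : ℕ) + 1) E r)
        = ENNReal.ofReal ((4 * Real.pi * r ^ 2)⁻¹ * (2 * (((n + 1 : ℕ) : ℝ) + 1) *
          pairD γ ((n + 1 : ℕ) + 1) (sOf γ ((n + 1 : ℕ) + 1)) E (x (n + 1) E) (y (n + 1) E) r)) := by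
      intro E _
      rw [(hD (n + 1) E).weight r hr0, ← ENNReal.ofReal_mul (by positivity)]
      congr 1
      ring
    rw [Finset.sum_congr rfl e, ← ENNReal.ofReal_sum_of_nonneg (fun E _ => by
      have := (hD (n + 1) E).nonneg r hr0
      positivity), ← Finset.mul_sum]
    exact ENNReal.ofReal_le_ofReal ((mul_le_mul_of_nonneg_left
      (pairD_sum_high h0 h1 hD (Nat.succ_ne_zero n) T hr0 hρ)
      (show 0 ≤ (4 * Real.pi * r ^ 2)⁻¹ by positivity)).trans (le_of_eq (mul_assoc _ _ _).symm))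

theorem density_pos {γ : ℝ} (h0 : 0 < γ) (h1 : γ < 1) {r : ℝ} (hr : 0 < r) :
    0 < furryDensity γ r := by
  have c := chOf h0 h1
  have hs : sOf γ 1 < 1 := by nlinarith [c.sq_add, c.spos]
  obtain ⟨G, F, hg, hN⟩ := c.ground
  refine lt_of_lt_of_le ?_ ((ENNReal.le_tsum (⟨sOf γ 1, c.spos, hs⟩ : Ioo (0 : ℝ) 1)).trans
    (ENNReal.le_tsum (f := fun κ : ℤ => ∑' E : Ioo (0 : ℝ) 1,
      ENNReal.ofReal (2 * |(κ : ℝ)| / (4 * Real.pi * r ^ 2)) * radialWeight γ κ E r) (-1)))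
  have hΓ : 0 < Real.Gamma (2 * sOf γ 1 + 1) := Real.Gamma_pos_of_pos (by linarith [c.spos])
  push_cast
  rw [hg.weight_eq hr, hN r hr, ← ENNReal.ofReal_mul (by positivity), ENNReal.ofReal_pos]
  have := Real.pi_pos
  simp only [abs_neg, abs_one]
  positivity

end Pool.Agent.Lib.MP_2347b2_mp
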