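import Pool.Agent.Lib.MP_2347b2_mp.Ortho

namespace Pool.Agent.Lib.MP_2347b2_mp

open MeasureTheory Set Filter Topology

/-- the ladder form of the radial system -/
structure Lad (s z b c : ℝ) (x y : ℝ → ℝ) : Prop where
  dx : ∀ r, 0 < r → HasDerivAt x ((s / r - z) * x r + b * y r) r
  dy : ∀ r, 0 < r → HasDerivAt y (-(s / r - z) * y r + c * x r) r
  ax : Adm x
  ay : Adm y

namespace Lad

variable {s z b c : ℝ} {x y : ℝ → ℝ}

theorem dxy (h : Lad s z b c x y) (r : ℝ) (hr : 0 < r) :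
    HasDerivAt (fun r => x r * y r) (b * y r ^ 2 + c * x r ^ 2) r :=
  ((h.dx r hr).fun_mul (h.dy r hr)).congr_deriv (by ring)

theorem balance (h : Lad s z b c x y) :
    b * (∫ r in Ioi 0, y r ^ 2) + c * (∫ r in Ioi 0, x r ^ 2) = 0 := by
  have := integral_deriv_eq_zero h.dxy ((h.ay.sq.const_mul b).add (h.ax.sq.const_mul c))
    (h.ax.mul h.ay) (h.ax.mul_div h.ay)
  rwa [integral_add (h.ay.sq.const_mul b) (h.ax.sq.const_mul c), integral_const_mul,
    integral_const_mul] at this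

theorem riccati (h : Lad s z b c x y) {θ R : ℝ}
    (hθ : ∀ r ∈ Ioc 0 R, 0 ≤ θ * (1 + 2 * s) - 2 * θ * z * r - θ ^ 2 * r ^ 2 + b * c) :
    ∀ r ∈ Ioc 0 R, 0 ≤ θ * r * x r ^ 2 + b * (x r * y r) := by
  refine nonneg_of_deriv (f' := fun r => (b * y r + θ * r * x r) ^ 2 +
    x r ^ 2 * (θ * (1 + 2 * s) - 2 * θ * z * r - θ ^ 2 * r ^ 2 + b * c)) (fun r hr => ?_)
    (fun r hr => add_nonneg (sq_nonneg _) (mul_nonneg (sq_nonneg _) (hθ r hr))) ?_
  · refine ((((hasDerivAt_id' r).const_mul θ).fun_mul ((h.dx r hr).fun_pow 2)).fun_add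
      ((h.dxy r hr).const_mul b)).congr_deriv ?_
    push_cast
    field_simp
    ring
  · refine IntegrableOn.congr_fun ((h.ax.sq.const_mul θ).add ((h.ax.mul_div h.ay).const_mul b))
      (fun r hr => ?_) measurableSet_Ioi
    have : r ≠ 0 := ne_of_gt hr
    simp only [Pi.add_apply]
    field_simp

theorem growth (h : Lad s z b c x y) {θ R : ℝ}
    (hθ : ∀ r ∈ Ioc 0 R, 0 ≤ θ * (1 + 2 * s) - 2 * θ * z * r - θ ^ 2 * r ^ 2 + b * c) :
    MonotoneOn (fun r => x r ^ 2 * Real.exp (-(2 * s) * Real.log r + 2 * z * r + θ * r ^ 2))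
      (Ioc 0 R) := by
  refine monotoneOn_Ioc (f' := fun r => 2 * (θ * r * x r ^ 2 + b * (x r * y r)) *
    Real.exp (-(2 * s) * Real.log r + 2 * z * r + θ * r ^ 2)) (fun r hr => ?_)
    (fun r hr => mul_nonneg (mul_nonneg two_pos.le (h.riccati hθ r hr)) (Real.exp_pos _).le)
  refine (((h.dx r hr).fun_pow 2).fun_mul (((((Real.hasDerivAt_log hr.ne').const_mul
    (-(2 * s))).fun_add ((hasDerivAt_id' r).const_mul (2 * z))).fun_add
    (((hasDerivAt_id' r).fun_pow 2).const_mul θ)).exp)).congr_deriv ?_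
  push_cast
  field_simp
  ring

theorem scale (h : Lad s z b c x y) {μ ν b' c' : ℝ} (hb : b' * ν = μ * b) (hc : c' * μ = ν * c) :
    Lad s z b' c' (fun r => μ * x r) (fun r => ν * y r) where
  dx := fun r hr => ((h.dx r hr).const_mul μ).congr_deriv (by linear_combination (-y r) * hb)
  dy := fun r hr => ((h.dy r hr).const_mul ν).congr_deriv (by linear_combination (-x r) * hc)
  ax := by simpa using h.ax.lin h.ay μ 0
  ay := by simpa using h.ay.lin h.ax ν 0

theorem int_quad (h : Lad s z b c x y) (u v w : ℝ) :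
    ∫ r in Ioi 0, (u * x r ^ 2 + v * y r ^ 2 + w * (x r * y r))
      = u * (∫ r in Ioi 0, x r ^ 2) + v * (∫ r in Ioi 0, y r ^ 2)
        + w * ∫ r in Ioi 0, x r * y r := by
  rw [integral_add (f := fun r => u * x r ^ 2 + v * y r ^ 2)
    ((h.ax.sq.const_mul u).add (h.ay.sq.const_mul v)) ((h.ax.mul h.ay).const_mul w), integral_add (h.ax.sq.const_mul u) (h.ay.sq.const_mul v),
    integral_const_mul, integral_const_mul, integral_const_mul]

end Lad

theorem to_lad {σ α β γ κ s E : ℝ} (hσ : σ = 1 ∨ σ = -1) (hγ : γ = σ * α * β)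
    (hκ : κ = σ * (α ^ 2 + β ^ 2) / 2) (hs : s = σ * (β ^ 2 - α ^ 2) / 2) (hs0 : s ≠ 0)
    {G F : ℝ → ℝ} (h : IsRadialEigenfunction γ κ E G F) :
    Lad s (γ * E / s) ((s - E * κ) / s) ((s + E * κ) / s)
      (fun r => α / (α ^ 2 - β ^ 2) * G r + -β / (α ^ 2 - β ^ 2) * F r)
      (fun r => -β / (α ^ 2 - β ^ 2) * G r + α / (α ^ 2 - β ^ 2) * F r) := by
  have h1 : β ^ 2 - α ^ 2 ≠ 0 := fun e => hs0 (by rw [hs, e]; simp)
  have h2 : α ^ 2 - β ^ 2 ≠ 0 := fun e => h1 (by linarith)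
  refine ⟨fun r hr => ?_, fun r hr => ?_, h.admG.lin h.admF _ _, h.admG.lin h.admF _ _⟩
  · refine (((h.upper r hr).const_mul _).fun_add ((h.lower r hr).const_mul _)).congr_deriv ?_
    subst hγ hκ hs
    rcases hσ with rfl | rfl <;> field_simp <;> ring
  · refine (((h.upper r hr).const_mul _).fun_add ((h.lower r hr).const_mul _)).congr_deriv ?_
    subst hγ hκ hs
    rcases hσ with rfl | rfl <;> field_simp <;> ring

theorem of_lad {σ α β γ κ s E : ℝ} (hσ : σ = 1 ∨ σ = -1) (hγ : γ = σ * α * β)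
    (hκ : κ = σ * (α ^ 2 + β ^ 2) / 2) (hs : s = σ * (β ^ 2 - α ^ 2) / 2) (hs0 : s ≠ 0)
    {x y : ℝ → ℝ} (h : Lad s (γ * E / s) ((s - E * κ) / s) ((s + E * κ) / s) x y)
    (hn : ∫ r in Ioi 0, ((α * x r + β * y r) ^ 2 + (β * x r + α * y r) ^ 2) = 1) :
    IsRadialEigenfunction γ κ E (fun r => α * x r + β * y r) (fun r => β * x r + α * y r) := by
  have h1 : β ^ 2 - α ^ 2 ≠ 0 := fun e => hs0 (by rw [hs, e]; simp)
  refine ⟨fun r hr => ?_, fun r hr => ?_, ?_, hn⟩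
  · refine (((h.dx r hr).const_mul _).fun_add ((h.dy r hr).const_mul _)).congr_deriv ?_
    subst hγ hκ hs
    rcases hσ with rfl | rfl <;> field_simp <;> ring
  · refine (((h.dx r hr).const_mul _).fun_add ((h.dy r hr).const_mul _)).congr_deriv ?_
    subst hγ hκ hs
    rcases hσ with rfl | rfl <;> field_simp <;> ring
  · refine IntegrableOn.congr_fun ((h.ax.lin h.ay α β).pot.add (h.ax.lin h.ay β α).pot)
      (fun r _ => ?_) measurableSet_Ioi
    simp only [Pi.add_apply]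
    ring

end Pool.Agent.Lib.MP_2347b2_mp
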