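import Pool.Agent.Lib.MP_2347b2_mp.Basic

namespace Pool.Agent.Lib.MP_2347b2_mp

open MeasureTheory Set Filter Topology

theorem monotoneOn_Ioi {f f' : ℝ → ℝ} (hd : ∀ r, 0 < r → HasDerivAt f (f' r) r)
    (hp : ∀ r, 0 < r → 0 ≤ f' r) : MonotoneOn f (Ioi 0) := by
  refine monotoneOn_of_deriv_nonneg (convex_Ioi 0)
    (fun r hr => (hd r hr).continuousAt.continuousWithinAt)
    (fun r hr => (hd r (interior_subset hr)).differentiableAt.differentiableWithinAt) ?_
  intro r hr
  rw [(hd r (interior_subset hr)).deriv]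
  exact hp r (interior_subset hr)

theorem monotoneOn_Ioc {f f' : ℝ → ℝ} {R : ℝ} (hd : ∀ r, 0 < r → HasDerivAt f (f' r) r)
    (hp : ∀ r ∈ Ioc 0 R, 0 ≤ f' r) : MonotoneOn f (Ioc 0 R) := by
  refine monotoneOn_of_deriv_nonneg (convex_Ioc 0 R)
    (fun r hr => (hd r hr.1).continuousAt.continuousWithinAt)
    (fun r hr => (hd r (interior_subset hr).1).differentiableAt.differentiableWithinAt) ?_
  intro r hr
  rw [(hd r (interior_subset hr).1).deriv]
  exact hp r (interior_subset hr)

/-- uniqueness for the radial system -/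
theorem vanish {γ κ E : ℝ} {G F : ℝ → ℝ}
    (hG : ∀ r : ℝ, 0 < r → HasDerivAt G (-(κ / r) * G r + (E + 1 + γ / r) * F r) r)
    (hF : ∀ r : ℝ, 0 < r → HasDerivAt F (κ / r * F r - (E - 1 + γ / r) * G r) r)
    {a : ℝ} (ha : 0 < a) (h1 : G a = 0) (h2 : F a = 0) :
    ∀ r, 0 < r → G r = 0 ∧ F r = 0 := by
  have hN : ∀ r, 0 < r → HasDerivAt (fun r => G r ^ 2 + F r ^ 2)
      (-(2 * κ / r) * (G r ^ 2 - F r ^ 2) + 4 * G r * F r) r := fun r hr =>
    (((hG r hr).fun_pow 2).fun_add ((hF r hr).fun_pow 2)).congr_deriv (by push_cast; ring)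
  have hb : ∀ r, 0 < r → |-(2 * κ / r) * (G r ^ 2 - F r ^ 2) + 4 * G r * F r|
      ≤ (2 * |κ| / r + 2) * (G r ^ 2 + F r ^ 2) := fun r hr => by
    have e1 : |-(2 * κ / r) * (G r ^ 2 - F r ^ 2)| ≤ 2 * |κ| / r * (G r ^ 2 + F r ^ 2) := by
      rw [abs_mul, abs_neg, abs_div, abs_mul, abs_two, abs_of_pos hr]
      refine mul_le_mul_of_nonneg_left ?_ (by positivity)
      rw [abs_le]; constructor <;> nlinarith [sq_nonneg (G r), sq_nonneg (F r)]
    have e2 : |4 * G r * F r| ≤ 2 * (G r ^ 2 + F r ^ 2) := by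
      rw [abs_le]; constructor <;> nlinarith [sq_nonneg (G r + F r), sq_nonneg (G r - F r)]
    have := abs_add_le (-(2 * κ / r) * (G r ^ 2 - F r ^ 2)) (4 * G r * F r)
    linarith
  have hφ : ∀ (c r : ℝ), 0 < r → HasDerivAt (fun r => Real.exp (c * (2 * |κ| * Real.log r + 2 * r)))
      (Real.exp (c * (2 * |κ| * Real.log r + 2 * r)) * (c * (2 * |κ| / r + 2))) r := fun c r hr =>
    (((((Real.hasDerivAt_log hr.ne').const_mul (2 * |κ|)).fun_add
      ((hasDerivAt_id' r).const_mul 2)).const_mul c).exp).congr_deriv (by ring)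
  have up := monotoneOn_Ioi (fun r hr => (hN r hr).fun_mul (hφ 1 r hr)) (fun r hr => by
    have := (abs_le.1 (hb r hr)).1
    have h3 := Real.exp_pos (1 * (2 * |κ| * Real.log r + 2 * r))
    nlinarith)
  have down := monotoneOn_Ioi (fun r hr => ((hN r hr).fun_mul (hφ (-1) r hr)).fun_neg)
    (fun r hr => by
      have := (abs_le.1 (hb r hr)).2
      have h3 := Real.exp_pos (-1 * (2 * |κ| * Real.log r + 2 * r))
      nlinarith)
  intro r hr
  have hz : G r ^ 2 + F r ^ 2 ≤ 0 := by
    rcases le_total r a with h | h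
    · have := up hr ha h
      simp only [h1, h2] at this
      have h3 := Real.exp_pos (1 * (2 * |κ| * Real.log r + 2 * r))
      nlinarith
    · have := down ha hr h
      simp only [h1, h2] at this
      have h3 := Real.exp_pos (-1 * (2 * |κ| * Real.log r + 2 * r))
      nlinarith
  constructor <;> nlinarith [sq_nonneg (G r), sq_nonneg (F r)]

namespace IsRadialEigenfunction

variable {γ κ E E' : ℝ} {G F G' F' : ℝ → ℝ}

theorem exists_ne (h : IsRadialEigenfunction γ κ E G F) : ∃ a, 0 < a ∧ G a ^ 2 + F a ^ 2 ≠ 0 := by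
  by_contra hn
  push Not at hn
  have := h.normalized
  rw [setIntegral_congr_fun measurableSet_Ioi (g := fun _ => 0) (fun r hr => hn r hr)] at this
  simp at this

theorem wronskian (h : IsRadialEigenfunction γ κ E G F) (h' : IsRadialEigenfunction γ κ E' G' F')
    (r : ℝ) (hr : 0 < r) : HasDerivAt (fun r => G r * F' r - F r * G' r)
      ((E - E') * (G r * G' r + F r * F' r)) r :=
  (((h.upper r hr).fun_mul (h'.lower r hr)).fun_sub
    ((h.lower r hr).fun_mul (h'.upper r hr))).congr_deriv (by ring)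

theorem wr_int (h : IsRadialEigenfunction γ κ E G F) (h' : IsRadialEigenfunction γ κ E' G' F') :
    IntegrableOn (fun r => (G r * F' r - F r * G' r) / r) (Ioi 0) :=
  IntegrableOn.congr_fun ((h.admG.mul_div h'.admF).sub (h.admF.mul_div h'.admG))
    (fun r _ => by simp only [Pi.sub_apply]; ring) measurableSet_Ioi

theorem ortho (h : IsRadialEigenfunction γ κ E G F) (h' : IsRadialEigenfunction γ κ E' G' F')
    (hne : E ≠ E') : ∫ r in Ioi (0 : ℝ), (G r * G' r + F r * F' r) = 0 := by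
  have := integral_deriv_eq_zero (h.wronskian h')
    (((h.admG.mul h'.admG).add (h.admF.mul h'.admF)).const_mul (E - E'))
    ((h.admG.mul h'.admF).sub (h.admF.mul h'.admG)) (h.wr_int h')
  rw [integral_const_mul] at this
  exact (mul_eq_zero.1 this).resolve_left (sub_ne_zero.2 hne)

theorem unique (h : IsRadialEigenfunction γ κ E G F) (h' : IsRadialEigenfunction γ κ E G' F') :
    ∀ r, 0 < r → G' r ^ 2 + F' r ^ 2 = G r ^ 2 + F r ^ 2 := by
  obtain ⟨a, ha, hne⟩ := h.exists_ne
  have w1 := nonneg_of_deriv (R := a) (h.wronskian h') (fun r _ => by simp) (h.wr_int h') a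
    ⟨ha, le_rfl⟩
  have w2 := nonneg_of_deriv (R := a) (h'.wronskian h) (fun r _ => by simp) (h'.wr_int h) a
    ⟨ha, le_rfl⟩
  have w : G a * F' a - F a * G' a = 0 := by linarith
  set c := (G a * G' a + F a * F' a) / (G a ^ 2 + F a ^ 2) with hc
  have hv := vanish (γ := γ) (κ := κ) (E := E) (G := fun r => G' r - c * G r)
    (F := fun r => F' r - c * F r)
    (fun r hr => ((h'.upper r hr).fun_sub ((h.upper r hr).const_mul c)).congr_deriv (by ring))
    (fun r hr => ((h'.lower r hr).fun_sub ((h.lower r hr).const_mul c)).congr_deriv (by ring))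
    ha (by rw [hc]; field_simp; linear_combination (-F a) * w)
    (by rw [hc]; field_simp; linear_combination (G a) * w)
  have e : ∀ r, 0 < r → G' r ^ 2 + F' r ^ 2 = c ^ 2 * (G r ^ 2 + F r ^ 2) := fun r hr => by
    obtain ⟨h1, h2⟩ := hv r hr
    rw [sub_eq_zero] at h1 h2
    rw [h1, h2]; ring
  have h3 := h'.normalized
  rw [setIntegral_congr_fun measurableSet_Ioi (fun r hr => e r hr), integral_const_mul,
    h.normalized, mul_one] at h3
  intro r hr
  rw [e r hr, h3, one_mul]

theorem weight_eq (h : IsRadialEigenfunction γ κ E G F) {r : ℝ} (hr : 0 < r) :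
    radialWeight γ κ E r = ENNReal.ofReal (G r ^ 2 + F r ^ 2) := by
  refine le_antisymm (iSup_le fun G' => iSup_le fun F' => iSup_le fun h' => ?_)
    (le_iSup_of_le G (le_iSup_of_le F (le_iSup_of_le h le_rfl)))
  rw [h.unique h' r hr]

end IsRadialEigenfunction

theorem weight_eq_zero {γ κ E : ℝ} (h : ¬ ∃ G F, IsRadialEigenfunction γ κ E G F) (r : ℝ) :
    radialWeight γ κ E r = 0 :=
  le_antisymm (iSup_le fun G => iSup_le fun F => iSup_le fun h' => (h ⟨G, F, h'⟩).elim) bot_le

/-- Bessel's inequality in one channel -/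
theorem bessel {ι : Type} {γ κ : ℝ} (T : Finset ι) (E : ι → ℝ) (hE : InjOn E T)
    (G F : ι → ℝ → ℝ) (h : ∀ i ∈ T, IsRadialEigenfunction γ κ (E i) (G i) (F i))
    {a b : ℝ} (ha : 0 < a) (hab : a ≤ b) {φ ψ : ℝ → ℝ} (hφ : ContinuousOn φ (Ioi 0))
    (hψ : ContinuousOn ψ (Ioi 0)) :
    ∑ i ∈ T, (∫ t in a..b, (φ t * G i t + ψ t * F i t)) ^ 2 ≤ ∫ t in a..b, (φ t ^ 2 + ψ t ^ 2) := by
  classical
  set c : ι → ℝ := fun i => ∫ t in a..b, (φ t * G i t + ψ t * F i t) with hc
  have hsub : uIcc a b ⊆ Ioi 0 := by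
    rw [uIcc_of_le hab]; exact fun t ht => ha.trans_le ht.1
  have hu : ContinuousOn (fun t => ∑ i ∈ T, c i * G i t) (Ioi 0) :=
    continuousOn_finsetSum _ fun i hi => continuousOn_const.mul (h i hi).contG
  have hv : ContinuousOn (fun t => ∑ i ∈ T, c i * F i t) (Ioi 0) :=
    continuousOn_finsetSum _ fun i hi => continuousOn_const.mul (h i hi).contF
  have e0 : ∀ t, (∑ i ∈ T, c i * G i t) ^ 2 + (∑ i ∈ T, c i * F i t) ^ 2
      = ∑ i ∈ T, ∑ j ∈ T, c i * c j * (G i t * G j t + F i t * F j t) := fun t => by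
    rw [sq, sq, Finset.sum_mul_sum, Finset.sum_mul_sum, ← Finset.sum_add_distrib]
    refine Finset.sum_congr rfl fun i _ => ?_
    rw [← Finset.sum_add_distrib]
    exact Finset.sum_congr rfl fun j _ => by ring
  have hij : ∀ i ∈ T, ∀ j ∈ T, IntegrableOn
      (fun t => c i * c j * (G i t * G j t + F i t * F j t)) (Ioi 0) := fun i hi j hj =>
    (((h i hi).admG.mul (h j hj).admG).add ((h i hi).admF.mul (h j hj).admF)).const_mul _
  have hI : IntegrableOn (fun t => (∑ i ∈ T, c i * G i t) ^ 2 + (∑ i ∈ T, c i * F i t) ^ 2)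
      (Ioi 0) := by
    simp only [e0]
    exact integrable_finsetSum _ fun i hi => integrable_finsetSum _ fun j hj => hij i hi j hj
  have e1 : ∫ t in Ioi (0 : ℝ), ((∑ i ∈ T, c i * G i t) ^ 2 + (∑ i ∈ T, c i * F i t) ^ 2)
      = ∑ i ∈ T, c i ^ 2 := by
    simp only [e0]
    rw [integral_finsetSum _ fun i hi => integrable_finsetSum _ fun j hj => hij i hi j hj]
    refine Finset.sum_congr rfl fun i hi => ?_
    rw [integral_finsetSum _ fun j hj => hij i hi j hj, Finset.sum_eq_single i]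
    · rw [integral_const_mul]
      have := (h i hi).normalized
      simp only [sq] at this ⊢
      rw [this, mul_one]
    · intro j hj hne
      rw [integral_const_mul, (h i hi).ortho (h j hj) (fun e => hne (hE hj hi e.symm)), mul_zero]
    · intro hn; exact (hn hi).elim
  have e2 : ∑ i ∈ T, c i ^ 2 = ∫ t in a..b,
      (φ t * (∑ i ∈ T, c i * G i t) + ψ t * (∑ i ∈ T, c i * F i t)) := by
    have : ∀ t, φ t * (∑ i ∈ T, c i * G i t) + ψ t * (∑ i ∈ T, c i * F i t)
        = ∑ i ∈ T, c i * (φ t * G i t + ψ t * F i t) := fun t => by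
      rw [Finset.mul_sum, Finset.mul_sum, ← Finset.sum_add_distrib]
      exact Finset.sum_congr rfl fun j _ => by ring
    simp only [this]
    rw [intervalIntegral.integral_finsetSum
      (f := fun i t => c i * (φ t * G i t + ψ t * F i t)) fun i hi => ((continuousOn_const.mul
      ((hφ.mul (h i hi).contG).add (hψ.mul (h i hi).contF))).mono hsub).intervalIntegrable]
    exact Finset.sum_congr rfl fun i _ => by rw [intervalIntegral.integral_const_mul, sq]
  have e3 : ∫ t in a..b, ((∑ i ∈ T, c i * G i t) ^ 2 + (∑ i ∈ T, c i * F i t) ^ 2)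
      ≤ ∑ i ∈ T, c i ^ 2 := by
    rw [← e1, intervalIntegral.integral_of_le hab]
    exact setIntegral_mono_set hI (Eventually.of_forall fun t => by positivity)
      (LE.le.eventuallyLE fun t ht => ha.trans ht.1)
  have i1 : IntervalIntegrable (fun t => φ t ^ 2 + ψ t ^ 2) volume a b :=
    (((hφ.pow 2).add (hψ.pow 2)).mono hsub).intervalIntegrable
  have i2 : IntervalIntegrable
      (fun t => (∑ i ∈ T, c i * G i t) ^ 2 + (∑ i ∈ T, c i * F i t) ^ 2) volume a b :=
    (((hu.pow 2).add (hv.pow 2)).mono hsub).intervalIntegrable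
  have e4 := intervalIntegral.integral_mono_on (μ := volume) hab
    ((((hφ.mul hu).add (hψ.mul hv)).mono hsub).intervalIntegrable.const_mul 2) (i1.add i2)
    (fun t _ => by
      simp only [Pi.add_apply, Pi.mul_apply]
      nlinarith [sq_nonneg (φ t - ∑ i ∈ T, c i * G i t), sq_nonneg (ψ t - ∑ i ∈ T, c i * F i t)])
  rw [intervalIntegral.integral_add i1 i2, intervalIntegral.integral_const_mul] at e4
  simp only [Pi.add_apply, Pi.mul_apply] at e4
  rw [← e2] at e4
  linarith

end Pool.Agent.Lib.MP_2347b2_mp
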