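import Pool.Agent.Lib.MP_2347b2_mp.Ladder

namespace Pool.Agent.Lib.MP_2347b2_mp

open MeasureTheory Set Filter Topology

/-- the constants of the pair of channels `κ = -k` and `κ = k` -/
structure Ch (γ k s p q : ℝ) : Prop where
  γpos : 0 < γ
  spos : 0 < s
  hp : p ^ 2 = k + s
  hq : q ^ 2 = k - s
  hpq : p * q = γ

/-- the density of a pair of states -/
noncomputable def pairD (γ k s E : ℝ) (x y : ℝ → ℝ) (r : ℝ) : ℝ :=
  4 * E * k ^ 2 * (x r ^ 2 / (E * k + s) + y r ^ 2 / (E * k - s)) - 8 * γ * (x r * y r)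

/-- the derivative of `pairD / r ^ 2`, times `r ^ 2` -/
noncomputable def pairS (γ k s E : ℝ) (x y : ℝ → ℝ) (r : ℝ) : ℝ :=
  -8 * ((E * k ^ 2 * (1 - s) / r + γ * s) / (E * k + s) * x r ^ 2
    + (E * k ^ 2 * (1 + s) / r - γ * s) / (E * k - s) * y r ^ 2 - 2 * (γ / r) * (x r * y r))

namespace Ch

variable {γ k s p q E : ℝ}

theorem sq_add (c : Ch γ k s p q) : s ^ 2 + γ ^ 2 = k ^ 2 := by
  rw [← c.hpq, mul_pow, c.hp, c.hq]; ring

theorem kpos (c : Ch γ k s p q) : 0 < k := by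
  have h1 := c.hq
  have h2 := c.spos
  nlinarith [sq_nonneg q]

theorem minus_lad (c : Ch γ k s p q) {G F : ℝ → ℝ} (h : IsRadialEigenfunction γ (-k) E G F) :
    ∃ x y, Lad s (γ * E / s) ((E * k + s) / s) (-(E * k - s) / s) x y ∧
      (∀ r, x r = p / (2 * s) * G r + q / (2 * s) * F r) ∧
      ∀ r, G r ^ 2 + F r ^ 2 = 2 * k * x r ^ 2 + 2 * k * y r ^ 2 + -(4 * γ) * (x r * y r) := by
  have e : p ^ 2 - (-q) ^ 2 = 2 * s := by rw [neg_sq, c.hp, c.hq]; ring
  have h1 := to_lad (σ := -1) (α := p) (β := -q) (s := s) (Or.inr rfl) (by rw [← c.hpq]; ring)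
    (by rw [neg_sq, c.hp, c.hq]; ring) (by rw [neg_sq, c.hp, c.hq]; ring) c.spos.ne' h
  rw [e, neg_neg, show s - E * -k = E * k + s by ring, show s + E * -k = -(E * k - s) by ring] at h1
  refine ⟨_, _, h1, fun r => rfl, fun r => ?_⟩
  have hk : k = (p ^ 2 + q ^ 2) / 2 := by rw [c.hp, c.hq]; ring
  have hs : s = (p ^ 2 - q ^ 2) / 2 := by rw [c.hp, c.hq]; ring
  have hs0 : p ^ 2 - q ^ 2 ≠ 0 := by rw [c.hp, c.hq]; linarith [c.spos]
  rw [← c.hpq, hk, hs]
  field_simp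
  ring

theorem plus_lad (c : Ch γ k s p q) {G F : ℝ → ℝ} (h : IsRadialEigenfunction γ k E G F) :
    ∃ x y, Lad s (γ * E / s) (-(E * k - s) / s) ((E * k + s) / s) x y ∧
      ∀ r, G r ^ 2 + F r ^ 2 = 2 * k * x r ^ 2 + 2 * k * y r ^ 2 + (4 * γ) * (x r * y r) := by
  have e : q ^ 2 - p ^ 2 = -(2 * s) := by rw [c.hp, c.hq]; ring
  have h1 := to_lad (σ := 1) (α := q) (β := p) (s := s) (Or.inl rfl) (by rw [← c.hpq]; ring)
    (by rw [c.hp, c.hq]; ring) (by rw [c.hp, c.hq]; ring) c.spos.ne' h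
  rw [e, show s - E * k = -(E * k - s) by ring, show s + E * k = E * k + s by ring] at h1
  refine ⟨_, _, h1, fun r => ?_⟩
  have hk : k = (p ^ 2 + q ^ 2) / 2 := by rw [c.hp, c.hq]; ring
  have hs : s = (p ^ 2 - q ^ 2) / 2 := by rw [c.hp, c.hq]; ring
  have hs0 : p ^ 2 - q ^ 2 ≠ 0 := by rw [c.hp, c.hq]; linarith [c.spos]
  rw [← c.hpq, hk, hs]
  field_simp
  ring

theorem lad_minus (c : Ch γ k s p q) {x y : ℝ → ℝ}
    (h : Lad s (γ * E / s) ((E * k + s) / s) (-(E * k - s) / s) x y)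
    (hn : 2 * k * (∫ r in Ioi 0, x r ^ 2) + 2 * k * (∫ r in Ioi 0, y r ^ 2)
      + -(4 * γ) * (∫ r in Ioi 0, x r * y r) = 1) :
    ∃ G F, IsRadialEigenfunction γ (-k) E G F ∧
      ∀ r, G r ^ 2 + F r ^ 2 = 2 * k * x r ^ 2 + 2 * k * y r ^ 2 + -(4 * γ) * (x r * y r) := by
  have e : ∀ r, (p * x r + -q * y r) ^ 2 + (-q * x r + p * y r) ^ 2
      = 2 * k * x r ^ 2 + 2 * k * y r ^ 2 + -(4 * γ) * (x r * y r) := fun r => by
    rw [← c.hpq]
    linear_combination (x r ^ 2 + y r ^ 2) * c.hp + (x r ^ 2 + y r ^ 2) * c.hq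
  refine ⟨_, _, of_lad (σ := -1) (α := p) (β := -q) (s := s) (x := x) (y := y) (Or.inr rfl)
    (by rw [← c.hpq]; ring) (by rw [neg_sq, c.hp, c.hq]; ring) (by rw [neg_sq, c.hp, c.hq]; ring)
    c.spos.ne' ?_ ?_, e⟩
  · rwa [show s - E * -k = E * k + s by ring, show s + E * -k = -(E * k - s) by ring]
  · simp only [e]
    rw [h.int_quad, hn]

theorem lad_plus (c : Ch γ k s p q) {x y : ℝ → ℝ}
    (h : Lad s (γ * E / s) (-(E * k - s) / s) ((E * k + s) / s) x y)
    (hn : 2 * k * (∫ r in Ioi 0, x r ^ 2) + 2 * k * (∫ r in Ioi 0, y r ^ 2)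
      + (4 * γ) * (∫ r in Ioi 0, x r * y r) = 1) :
    ∃ G F, IsRadialEigenfunction γ k E G F ∧
      ∀ r, G r ^ 2 + F r ^ 2 = 2 * k * x r ^ 2 + 2 * k * y r ^ 2 + (4 * γ) * (x r * y r) := by
  have e : ∀ r, (q * x r + p * y r) ^ 2 + (p * x r + q * y r) ^ 2
      = 2 * k * x r ^ 2 + 2 * k * y r ^ 2 + (4 * γ) * (x r * y r) := fun r => by
    rw [← c.hpq]
    linear_combination (x r ^ 2 + y r ^ 2) * c.hp + (x r ^ 2 + y r ^ 2) * c.hq
  refine ⟨_, _, of_lad (σ := 1) (α := q) (β := p) (s := s) (x := x) (y := y) (Or.inl rfl)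
    (by rw [← c.hpq]; ring) (by rw [c.hp, c.hq]; ring) (by rw [c.hp, c.hq]; ring)
    c.spos.ne' ?_ ?_, e⟩
  · rwa [show s - E * k = -(E * k - s) by ring, show s + E * k = E * k + s by ring]
  · simp only [e]
    rw [h.int_quad, hn]

/-- in the channel `κ = k` every eigenvalue has `E k > s` -/
theorem plus_pos (c : Ch γ k s p q) (hE : 0 < E) {G F : ℝ → ℝ}
    (h : IsRadialEigenfunction γ k E G F) : 0 < E * k - s := by
  by_contra hn
  push Not at hn
  obtain ⟨x, y, hl, hN⟩ := c.plus_lad h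
  have hs := c.spos
  have hk := c.kpos
  have hγ := c.γpos
  have hb := hl.balance
  have i1 : 0 ≤ ∫ r in Ioi 0, x r ^ 2 := integral_nonneg fun r => sq_nonneg _
  have i2 : 0 ≤ ∫ r in Ioi 0, y r ^ 2 := integral_nonneg fun r => sq_nonneg _
  have c1 : 0 ≤ -(E * k - s) / s := div_nonneg (by linarith) hs.le
  have c2 : 0 < (E * k + s) / s := by positivity
  have hx := hl.ax.eq_zero (by
    have := mul_nonneg c1 i2
    have h3 : (E * k + s) / s * ∫ r in Ioi 0, x r ^ 2 ≤ 0 := by linarith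
    exact le_antisymm (by by_contra h4; push Not at h4; nlinarith [mul_pos c2 h4]) i1)
  have ha : 0 < s ^ 2 / (γ * E) := by positivity
  have hy := nonneg_of_deriv (f := fun r => -(y r ^ 2))
    (f' := fun r => 2 * (s / r - γ * E / s) * y r ^ 2) (R := s ^ 2 / (γ * E))
    (fun r hr => (((hl.dy r hr).fun_pow 2).fun_neg).congr_deriv (by rw [hx r hr]; push_cast; ring))
    (fun r hr => by
      refine mul_nonneg (mul_nonneg two_pos.le (sub_nonneg.2 ?_)) (sq_nonneg _)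
      have h5 := hr.2
      rw [le_div_iff₀ (by positivity)] at h5
      rw [div_le_div_iff₀ hs hr.1]
      nlinarith)
    (IntegrableOn.congr_fun hl.ay.pot.neg (fun r _ => by simp only [Pi.neg_apply]; ring)
      measurableSet_Ioi) _ ⟨ha, le_rfl⟩
  have hy0 : y (s ^ 2 / (γ * E)) = 0 := by nlinarith [sq_nonneg (y (s ^ 2 / (γ * E)))]
  have h6 := hN (s ^ 2 / (γ * E))
  rw [hx _ ha, hy0] at h6
  have hv := vanish h.upper h.lower ha
    (by nlinarith [sq_nonneg (G (s ^ 2 / (γ * E))), sq_nonneg (F (s ^ 2 / (γ * E)))])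
    (by nlinarith [sq_nonneg (G (s ^ 2 / (γ * E))), sq_nonneg (F (s ^ 2 / (γ * E)))])
  obtain ⟨a, ha', hne⟩ := h.exists_ne
  exact hne (by rw [(hv a ha').1, (hv a ha').2]; norm_num)

/-- an eigenvalue in the channel `κ = k` is one in the channel `κ = -k` -/
theorem minus_of_plus (c : Ch γ k s p q) (hE : 0 < E) {G F : ℝ → ℝ}
    (h : IsRadialEigenfunction γ k E G F) : ∃ G F, IsRadialEigenfunction γ (-k) E G F := by
  have hB := c.plus_pos hE h
  obtain ⟨x, y, hl, hN⟩ := c.plus_lad h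
  have hs := c.spos
  have hA : 0 < E * k + s := by linarith
  obtain ⟨μ, hμ, hμ2⟩ : ∃ μ : ℝ, 0 < μ ∧ μ ^ 2 = (E * k - s) / (E * k + s) :=
    ⟨Real.sqrt _, Real.sqrt_pos.2 (div_pos hB hA), Real.sq_sqrt (div_pos hB hA).le⟩
  rw [eq_div_iff hA.ne'] at hμ2
  have hl' := hl.scale (μ := μ⁻¹) (ν := -μ) (b' := (E * k + s) / s) (c' := -(E * k - s) / s)
    (by field_simp; linear_combination -hμ2) (by field_simp; linear_combination hμ2)
  have hb := hl.balance
  have hn := h.normalized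
  simp only [hN] at hn
  rw [hl.int_quad] at hn
  obtain ⟨G', F', h', -⟩ := c.lad_minus hl' (by
    simp only [mul_pow, integral_const_mul,
      show ∀ r, μ⁻¹ * x r * (-μ * y r) = -1 * (x r * y r) from fun r => by field_simp]
    refine Eq.trans ?_ hn
    have hb' : (E * k + s) * (∫ r in Ioi 0, x r ^ 2) = (E * k - s) * ∫ r in Ioi 0, y r ^ 2 := by
      field_simp at hb; linarith
    have e1 : (∫ r in Ioi 0, x r ^ 2) = μ ^ 2 * ∫ r in Ioi 0, y r ^ 2 := by
      apply mul_left_cancel₀ hA.ne'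
      rw [hb', ← hμ2]; ring
    rw [e1]
    field_simp
    ring)
  exact ⟨G', F', h'⟩

/-- the two channels together -/
theorem pair (c : Ch γ k s p q) (hE : 0 < E) {G F : ℝ → ℝ}
    (h : IsRadialEigenfunction γ (-k) E G F) :
    ∃ x y, Lad s (γ * E / s) ((E * k + s) / s) (-(E * k - s) / s) x y ∧
      (∀ r, x r = p / (2 * s) * G r + q / (2 * s) * F r) ∧ 0 ≤ E * k - s ∧
      (E * k - s = 0 → ∀ r, 0 < r → y r = 0) ∧
      ∀ r, 0 < r → 0 ≤ pairD γ k s E x y r ∧ G r ^ 2 + F r ^ 2 ≤ pairD γ k s E x y r ∧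
        radialWeight γ (-k) E r + radialWeight γ k E r = ENNReal.ofReal (pairD γ k s E x y r) := by
  obtain ⟨x, y, hl, hx, hN⟩ := c.minus_lad h
  have hs := c.spos
  have hk := c.kpos
  have hA : 0 < E * k + s := by positivity
  have hb := hl.balance
  have hb' : (E * k + s) * (∫ r in Ioi 0, y r ^ 2) = (E * k - s) * ∫ r in Ioi 0, x r ^ 2 := by
    field_simp at hb; linarith
  have i1 : 0 ≤ ∫ r in Ioi 0, x r ^ 2 := integral_nonneg fun r => sq_nonneg _
  have i2 : 0 ≤ ∫ r in Ioi 0, y r ^ 2 := integral_nonneg fun r => sq_nonneg _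
  have hn := h.normalized
  simp only [hN] at hn
  rw [hl.int_quad] at hn
  have hy0 : E * k - s ≤ 0 → ∀ r, 0 < r → y r = 0 := fun hB => hl.ay.eq_zero (by
    have h3 : (E * k + s) * (∫ r in Ioi 0, y r ^ 2) ≤ 0 := by
      rw [hb']; exact mul_nonpos_of_nonpos_of_nonneg hB i1
    exact le_antisymm (by by_contra h4; push Not at h4; nlinarith [mul_pos hA h4]) i2)
  have hB : 0 ≤ E * k - s := by
    by_contra hB
    push Not at hB
    have h1 : ∫ r in Ioi 0, y r ^ 2 = 0 := by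
      rw [setIntegral_congr_fun measurableSet_Ioi (g := fun _ => 0)
        (fun r hr => by simp [hy0 hB.le r hr])]
      simp
    have hx0 := hl.ax.eq_zero (by
      rw [h1, mul_zero] at hb'
      exact (mul_eq_zero.1 hb'.symm).resolve_left hB.ne)
    obtain ⟨a, ha', hne⟩ := h.exists_ne
    exact hne (by rw [hN, hx0 a ha', hy0 hB.le a ha']; ring)
  refine ⟨x, y, hl, hx, hB, fun e => hy0 e.le, ?_⟩
  rcases hB.eq_or_lt with hB | hB
  · intro r hr
    have e : pairD γ k s E x y r = G r ^ 2 + F r ^ 2 := by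
      rw [hN, pairD, hy0 hB.ge r hr]
      have : E * k = s := by linarith
      rw [show 4 * E * k ^ 2 = 4 * (E * k) * k by ring, this]
      field_simp
      ring
    rw [e, h.weight_eq hr, weight_eq_zero, add_zero]
    · exact ⟨by positivity, le_rfl, rfl⟩
    · rintro ⟨G', F', h'⟩
      exact (c.plus_pos hE h').ne hB
  · obtain ⟨μ, hμ, hμ2⟩ : ∃ μ : ℝ, 0 < μ ∧ μ ^ 2 = (E * k - s) / (E * k + s) :=
      ⟨Real.sqrt _, Real.sqrt_pos.2 (div_pos hB hA), Real.sq_sqrt (div_pos hB hA).le⟩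
    have hμ3 := hμ2
    rw [eq_div_iff hA.ne'] at hμ3
    have hl' := hl.scale (μ := μ) (ν := -μ⁻¹) (b' := -(E * k - s) / s) (c' := (E * k + s) / s)
      (by field_simp; linear_combination -hμ3) (by field_simp; linear_combination hμ3)
    have e0 : ∀ r, μ * x r * (-μ⁻¹ * y r) = -1 * (x r * y r) := fun r => by field_simp
    obtain ⟨G', F', h', hN'⟩ := c.lad_plus hl' (by
      simp only [mul_pow, integral_const_mul, e0]
      refine Eq.trans ?_ hn
      have e1 : (∫ r in Ioi 0, y r ^ 2) = μ ^ 2 * ∫ r in Ioi 0, x r ^ 2 := by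
        apply mul_left_cancel₀ hA.ne'
        rw [hb', ← hμ3]; ring
      rw [e1]
      field_simp
      ring)
    intro r hr
    have e : pairD γ k s E x y r = (G r ^ 2 + F r ^ 2) + (G' r ^ 2 + F' r ^ 2) := by
      rw [hN, hN', e0, mul_pow, mul_pow, neg_sq, inv_pow, hμ2, pairD]
      field_simp
      ring
    rw [e, h.weight_eq hr, h'.weight_eq hr, ← ENNReal.ofReal_add (by positivity) (by positivity)]
    exact ⟨by positivity, by nlinarith [sq_nonneg (G' r), sq_nonneg (F' r)], rfl⟩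

theorem pair_deriv (c : Ch γ k s p q) (hE : 0 < E) {x y : ℝ → ℝ}
    (hl : Lad s (γ * E / s) ((E * k + s) / s) (-(E * k - s) / s) x y)
    (hy : E * k - s = 0 → ∀ r, 0 < r → y r = 0) (r : ℝ) (hr : 0 < r) :
    HasDerivAt (fun r => pairD γ k s E x y r / r ^ 2) (pairS γ k s E x y r / r ^ 2) r := by
  have hs := c.spos
  have hk := c.kpos
  have hA : 0 < E * k + s := by positivity
  have h1 := (((((hl.dx r hr).fun_pow 2).div_const (E * k + s)).fun_add
    (((hl.dy r hr).fun_pow 2).div_const (E * k - s))).const_mul (4 * E * k ^ 2)).fun_sub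
    ((hl.dxy r hr).const_mul (8 * γ))
  refine (h1.fun_div ((hasDerivAt_id' r).fun_pow 2) (by positivity)).congr_deriv ?_
  rw [pairS]
  push_cast
  by_cases hB : E * k - s = 0
  · rw [hy hB r hr, hB]
    have : s = E * k := by linarith
    subst this
    field_simp
    ring
  · field_simp
    ring

end Ch

end Pool.Agent.Lib.MP_2347b2_mp
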