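import Pool.Agent.Lib.MP_2347b2_mp.Pair

namespace Pool.Agent.Lib.MP_2347b2_mp

open MeasureTheory Set Filter Topology

theorem quad_nonneg {a b c : ℝ} (x y : ℝ) (ha : 0 < a) (h : c ^ 2 ≤ a * b) :
    0 ≤ a * x ^ 2 + b * y ^ 2 - 2 * c * (x * y) := by
  have : 0 ≤ a * (a * x ^ 2 + b * y ^ 2 - 2 * c * (x * y)) := by
    nlinarith [sq_nonneg (a * x - c * y), mul_nonneg (sub_nonneg.2 h) (sq_nonneg y)]
  exact nonneg_of_mul_nonneg_right this ha

namespace Ch

variable {γ k s p q E : ℝ} {x y : ℝ → ℝ}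

theorem slope_one (c : Ch γ 1 s p q) (hB : 0 ≤ E * 1 - s)
    (hy : E * 1 - s = 0 → ∀ r, 0 < r → y r = 0) {r : ℝ} (hr : 0 < r) (hρ : γ * r ≤ 1) :
    pairS γ 1 s E x y r ≤ 0 := by
  have hs := c.spos
  have hγ := c.γpos
  have h1 := c.sq_add
  have hs1 : s ≤ 1 := by nlinarith
  have hE : 0 < E := by linarith
  have hA : 0 < E * 1 + s := by linarith
  have ha : 0 < (E * 1 ^ 2 * (1 - s) / r + γ * s) / (E * 1 + s) := by
    have : 0 ≤ 1 - s := by linarith
    positivity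
  rw [pairS]
  rcases hB.eq_or_lt with hB | hB
  · rw [hy hB.symm r hr]
    nlinarith [mul_nonneg ha.le (sq_nonneg (x r))]
  · have := quad_nonneg (b := (E * 1 ^ 2 * (1 + s) / r - γ * s) / (E * 1 - s)) (c := γ / r)
      (x r) (y r) ha (by
        rw [div_mul_div_comm, le_div_iff₀ (mul_pos hA hB), ← sub_nonneg]
        have e : (E * 1 ^ 2 * (1 - s) / r + γ * s) * (E * 1 ^ 2 * (1 + s) / r - γ * s)
            - (γ / r) ^ 2 * ((E * 1 + s) * (E * 1 - s))
            = s ^ 2 * (γ ^ 2 + 2 * E * (γ * r) - (γ * r) ^ 2) / r ^ 2 := by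
          field_simp
          linear_combination (-E ^ 2) * h1
        rw [e]
        have h2 : 0 < γ * r := by positivity
        have : 0 ≤ γ ^ 2 + 2 * E * (γ * r) - (γ * r) ^ 2 := by nlinarith
        positivity)
    linarith

theorem slope_ground (c : Ch γ 1 s p q) (hy : ∀ r, 0 < r → y r = 0) {r : ℝ} (hr : 0 < r) :
    pairS γ 1 s s x y r = -2 * ((1 - s) / r + γ) * pairD γ 1 s s x y r := by
  have hs := c.spos
  rw [pairS, pairD, hy r hr]
  field_simp
  ring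

theorem slope_high (c : Ch γ k s p q) (hk : 2 ≤ k) (hγ1 : γ ≤ 1) (hE1 : E ≤ 1)
    (hB : 0 ≤ E * k - s) (hy : E * k - s = 0 → ∀ r, 0 < r → y r = 0) {r : ℝ} (hr : 0 < r)
    (hρ : γ * r ≤ 1) : pairS γ k s E x y r ≤ 4 * k * (k - 1) * x r ^ 2 / r := by
  have hs := c.spos
  have hγ := c.γpos
  have h1 := c.sq_add
  have hs1 : 1 ≤ s := by nlinarith
  have hA : 0 < E * k + s := by linarith
  have hu : E * k ≤ k := by nlinarith
  have h2 : 0 < γ * r := by positivity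
  have ea : (E * k ^ 2 * (1 - s) / r + γ * s) / (E * k + s) + k * (k - 1) / (2 * r)
      = ((k - E * k) * s * k + (E * k - s) * (k * (k + 1) / 2) + s * (γ * r))
        / (r * (E * k + s)) := by
    field_simp
    ring
  have t1 : 0 ≤ (k - E * k) * s * k := by
    have : 0 ≤ k - E * k := by linarith
    positivity
  have t2 : 0 ≤ (E * k - s) * (k * (k + 1) / 2) := by positivity
  have t3 : 0 < s * (γ * r) := by positivity
  have ha : 0 < (E * k ^ 2 * (1 - s) / r + γ * s) / (E * k + s) + k * (k - 1) / (2 * r) := by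
    rw [ea]; positivity
  have key : 0 ≤ ((E * k ^ 2 * (1 - s) / r + γ * s) / (E * k + s) + k * (k - 1) / (2 * r)) * x r ^ 2
      + (E * k ^ 2 * (1 + s) / r - γ * s) / (E * k - s) * y r ^ 2 - 2 * (γ / r) * (x r * y r) := by
    rcases hB.eq_or_lt with hB | hB
    · rw [hy hB.symm r hr]
      nlinarith [mul_nonneg ha.le (sq_nonneg (x r))]
    · refine quad_nonneg (x r) (y r) ha ?_
      have eb : (E * k ^ 2 * (1 + s) / r - γ * s) / (E * k - s)
          = (E * k * k * (1 + s) - s * (γ * r)) / (r * (E * k - s)) := by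
        field_simp
      rw [ea, eb, div_mul_div_comm, le_div_iff₀ (by positivity)]
      have e3 : (γ / r) ^ 2 * (r * (E * k + s) * (r * (E * k - s)))
          = γ ^ 2 * (E * k + s) * (E * k - s) := by field_simp
      rw [e3]
      set u := E * k
      have hu1 : 1 ≤ u := by linarith
      have b1 : 2 * u ≤ u * k * (1 + s) - s * (γ * r) := by
        have : s * (γ * r) ≤ s * (u * k) := mul_le_mul_of_nonneg_left (by nlinarith) hs.le
        nlinarith
      have a1 : u - s ≤ (k - u) * s * k + (u - s) * (k * (k + 1) / 2) + s * (γ * r) := by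
        have : (u - s) * 1 ≤ (u - s) * (k * (k + 1) / 2) :=
          mul_le_mul_of_nonneg_left (by nlinarith) hB.le
        linarith
      have g1 : γ ^ 2 * (u + s) ≤ 2 * u := by
        have : γ ^ 2 ≤ 1 := by nlinarith
        nlinarith
      calc γ ^ 2 * (u + s) * (u - s) ≤ 2 * u * (u - s) := mul_le_mul_of_nonneg_right g1 hB.le
        _ = (u - s) * (2 * u) := by ring
        _ ≤ _ := mul_le_mul a1 b1 (by linarith) (by linarith)
  rw [pairS]
  have e : 4 * k * (k - 1) * x r ^ 2 / r = 8 * (k * (k - 1) / (2 * r) * x r ^ 2) := by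
    field_simp; ring
  rw [e]
  linarith

theorem s_lower (c : Ch γ k s p q) (hk : 2 ≤ k) (hγ1 : γ ≤ 1) : 1.73 ≤ s := by
  have hs := c.spos
  have hγ := c.γpos
  have h1 := c.sq_add
  nlinarith

theorem theta_ok (c : Ch γ k s p q) (hk : 2 ≤ k) (hγ1 : γ ≤ 1) (hE : 0 < E) (hE1 : E ≤ 1) :
    ∀ t ∈ Ioc 0 (3 / (2 * γ)), 0 ≤ γ ^ 2 / 7 * (1 + 2 * s) - 2 * (γ ^ 2 / 7) * (γ * E / s) * t
      - (γ ^ 2 / 7) ^ 2 * t ^ 2 + (E * k + s) / s * (-(E * k - s) / s) := by
  intro t ht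
  have hs := c.spos
  have hγ := c.γpos
  have h1 := c.sq_add
  have h2 := c.s_lower hk hγ1
  have h3 : γ * t ≤ 3 / 2 := by
    have := ht.2
    rw [le_div_iff₀ (by positivity)] at this
    linarith
  have h4 : 0 < γ * t := mul_pos hγ ht.1
  have h5 : s⁻¹ ≤ 0.5781 := by rw [inv_le_comm₀ hs (by norm_num)]; linarith
  have h6 : 0 < s⁻¹ := inv_pos.2 hs
  have e : γ ^ 2 / 7 * (1 + 2 * s) - 2 * (γ ^ 2 / 7) * (γ * E / s) * t
      - (γ ^ 2 / 7) ^ 2 * t ^ 2 + (E * k + s) / s * (-(E * k - s) / s)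
      = γ ^ 2 * ((1 + 2 * s - 2 * (γ * t * E) * s⁻¹ - (γ * t) ^ 2 / 7) / 7 - s⁻¹ ^ 2)
        + k ^ 2 * (1 - E ^ 2) * s⁻¹ ^ 2 := by
    field_simp
    linear_combination (49 : ℝ) * h1
  rw [e]
  have h7 : γ * t * E ≤ 3 / 2 := by nlinarith
  have h8 : γ * t * E * s⁻¹ ≤ 3 / 2 * 0.5781 := mul_le_mul h7 h5 h6.le (by norm_num)
  have h9 : 0 ≤ (1 + 2 * s - 2 * (γ * t * E) * s⁻¹ - (γ * t) ^ 2 / 7) / 7 - s⁻¹ ^ 2 := by
    nlinarith
  have h10 : 0 ≤ 1 - E ^ 2 := by nlinarith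
  positivity

theorem exp_le_eight : Real.exp 2.06 ≤ 8 := by
  have h1 : Real.exp 2.06 = Real.exp 1 * Real.exp 1 * Real.exp 0.06 := by
    rw [← Real.exp_add, ← Real.exp_add]; norm_num
  have h2 := Real.exp_one_lt_d9
  have h3 : Real.exp 0.06 ≤ 1 / (1 - 0.06) := Real.exp_bound_div_one_sub_of_interval
    (by norm_num) (by norm_num)
  have h4 := Real.exp_pos 1
  have h5 : Real.exp 1 * Real.exp 1 ≤ 7.4 := by nlinarith
  rw [h1]
  calc Real.exp 1 * Real.exp 1 * Real.exp 0.06 ≤ 7.4 * (1 / (1 - 0.06)) :=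
        mul_le_mul h5 h3 (Real.exp_pos _).le (by norm_num)
    _ ≤ 8 := by norm_num

/-- the regular component does not decay faster than the power law allows -/
theorem compare (c : Ch γ k s p q) (hk : 2 ≤ k) (hγ1 : γ ≤ 1) (hE : 0 < E) (hE1 : E ≤ 1)
    (hl : Lad s (γ * E / s) ((E * k + s) / s) (-(E * k - s) / s) x y) {r t : ℝ} (hr : 0 < r)
    (hrt : r ≤ t) (ht : t ≤ 3 / (2 * γ)) :
    x r ^ 2 * t ^ (2 * s) ≤ 8 * r ^ (2 * s) * x t ^ 2 := by
  have hs := c.spos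
  have hγ := c.γpos
  have ht0 : 0 < t := hr.trans_le hrt
  have hg := hl.growth (c.theta_ok hk hγ1 hE hE1) ⟨hr, hrt.trans ht⟩ ⟨ht0, ht⟩ hrt
  simp only at hg
  have h2 := c.s_lower hk hγ1
  have h3 : γ * t ≤ 3 / 2 := by
    rw [le_div_iff₀ (by positivity)] at ht
    linarith
  have h4 : 0 < γ * t := mul_pos hγ ht0
  have h5 : s⁻¹ ≤ 0.5781 := by rw [inv_le_comm₀ hs (by norm_num)]; linarith
  have h6 : 0 < s⁻¹ := inv_pos.2 hs
  have h7 : γ * t * E ≤ 3 / 2 := by nlinarith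
  have h8 : γ * t * E * s⁻¹ ≤ 3 / 2 * 0.5781 := mul_le_mul h7 h5 h6.le (by norm_num)
  have h9 : 2 * (γ * E / s) * t + γ ^ 2 / 7 * t ^ 2 ≤ 2.06 := by
    have : 2 * (γ * E / s) * t + γ ^ 2 / 7 * t ^ 2 = 2 * (γ * t * E * s⁻¹) + (γ * t) ^ 2 / 7 := by
      field_simp
    rw [this]; nlinarith
  have l1 : Real.exp (-(2 * s) * Real.log r)
      ≤ Real.exp (-(2 * s) * Real.log r + 2 * (γ * E / s) * r + γ ^ 2 / 7 * r ^ 2) := by
    refine Real.exp_le_exp.2 ?_
    have : 0 ≤ 2 * (γ * E / s) * r + γ ^ 2 / 7 * r ^ 2 := by positivity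
    linarith
  have l2 : Real.exp (-(2 * s) * Real.log t + 2 * (γ * E / s) * t + γ ^ 2 / 7 * t ^ 2)
      ≤ Real.exp (-(2 * s) * Real.log t) * 8 := by
    rw [add_assoc, Real.exp_add]
    exact mul_le_mul_of_nonneg_left ((Real.exp_le_exp.2 h9).trans exp_le_eight) (Real.exp_pos _).le
  have e : ∀ u : ℝ, 0 < u → Real.exp (-(2 * s) * Real.log u) = (u ^ (2 * s))⁻¹ := fun u hu => by
    rw [Real.rpow_def_of_pos hu, ← Real.exp_neg]; congr 1; ring
  rw [e r hr] at l1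
  rw [e t ht0] at l2
  have l3 : x r ^ 2 * (r ^ (2 * s))⁻¹ ≤ x t ^ 2 * ((t ^ (2 * s))⁻¹ * 8) :=
    (mul_le_mul_of_nonneg_left l1 (sq_nonneg _)).trans
      (hg.trans (mul_le_mul_of_nonneg_left l2 (sq_nonneg _)))
  have p1 : 0 < r ^ (2 * s) := Real.rpow_pos_of_pos hr _
  have p2 : 0 < t ^ (2 * s) := Real.rpow_pos_of_pos ht0 _
  calc x r ^ 2 * t ^ (2 * s) = x r ^ 2 * (r ^ (2 * s))⁻¹ * (r ^ (2 * s) * t ^ (2 * s)) := by
        field_simp
    _ ≤ x t ^ 2 * ((t ^ (2 * s))⁻¹ * 8) * (r ^ (2 * s) * t ^ (2 * s)) :=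
        mul_le_mul_of_nonneg_right l3 (by positivity)
    _ = _ := by field_simp

/-- the value at `r` is controlled by a fixed linear functional -/
theorem functional (c : Ch γ k s p q) (hk : 2 ≤ k) (hγ1 : γ ≤ 1) (hE : 0 < E) (hE1 : E ≤ 1)
    (hl : Lad s (γ * E / s) ((E * k + s) / s) (-(E * k - s) / s) x y) {r : ℝ} (hr : 0 < r)
    (hR : r ≤ 3 / (2 * γ)) :
    x r ^ 2 * (∫ t in r..(3 / (2 * γ)), t ^ (2 * s)) ^ 2
      ≤ 8 * r ^ (2 * s) * (∫ t in r..(3 / (2 * γ)), t ^ s * x t) ^ 2 := by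
  have hs := c.spos
  by_cases h0 : x r = 0
  · rw [h0]
    have : 0 < r ^ (2 * s) := Real.rpow_pos_of_pos hr _
    simp only [ne_eq, OfNat.ofNat_ne_zero, not_false_eq_true, zero_pow, zero_mul]
    positivity
  set R := 3 / (2 * γ)
  have p1 : 0 < r ^ (2 * s) := Real.rpow_pos_of_pos hr _
  set w := Real.sqrt (x r ^ 2 / (8 * r ^ (2 * s))) with hw
  have hw2 : w ^ 2 = x r ^ 2 / (8 * r ^ (2 * s)) := Real.sq_sqrt (by positivity)
  have hwp : 0 < w := Real.sqrt_pos.2 (by positivity)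
  have hsub : Icc r R ⊆ Ioi 0 := fun t ht => hr.trans_le ht.1
  have e2 : ∀ t : ℝ, 0 < t → t ^ (2 * s) = t ^ s * t ^ s := fun t ht => by
    rw [← Real.rpow_add ht]; congr 1; ring
  have hb : ∀ t ∈ Icc r R, w * t ^ s ≤ |x t| := fun t ht => by
    have h1 := c.compare hk hγ1 hE hE1 hl hr ht.1 ht.2
    have p2 : 0 < t ^ s := Real.rpow_pos_of_pos (hsub ht) _
    refine (abs_le_of_sq_le_sq' ?_ (abs_nonneg _)).2
    rw [mul_pow, hw2, sq_abs, div_mul_eq_mul_div, div_le_iff₀ (by positivity), sq (t ^ s),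
      ← e2 t (hsub ht)]
    linarith
  have cs : ∀ a : ℝ, ContinuousOn (fun t : ℝ => t ^ a) (Icc r R) := fun a =>
    continuousOn_id.rpow_const fun t ht => Or.inl (ne_of_gt (hsub ht))
  have cx : ContinuousOn x (Icc r R) := hl.ax.cont.mono hsub
  have i1 : IntervalIntegrable (fun t : ℝ => w * t ^ (2 * s)) volume r R :=
    ((cs _).intervalIntegrable_of_Icc hR).const_mul w
  have i2 : IntervalIntegrable (fun t : ℝ => t ^ s * x t) volume r R :=
    ((cs _).mul cx).intervalIntegrable_of_Icc hR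
  have hJ : 0 ≤ ∫ t in r..R, t ^ (2 * s) :=
    intervalIntegral.integral_nonneg hR fun t ht => (Real.rpow_pos_of_pos (hsub ht) _).le
  have key : w * (∫ t in r..R, t ^ (2 * s)) ≤ |∫ t in r..R, t ^ s * x t| := by
    rw [← intervalIntegral.integral_const_mul]
    rcases isPreconnected_Icc.mapsTo_Ioi_or_Iio cx (b := 0) (fun t ht h => by
      have := hb t ht
      rw [h, abs_zero] at this
      have p2 : 0 < t ^ s := Real.rpow_pos_of_pos (hsub ht) _
      nlinarith [mul_pos hwp p2]) with h | h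
    · refine le_trans (intervalIntegral.integral_mono_on hR i1 i2 fun t ht => ?_) (le_abs_self _)
      have h1 := hb t ht
      rw [abs_of_pos (h ht)] at h1
      have p2 : 0 < t ^ s := Real.rpow_pos_of_pos (hsub ht) _
      rw [e2 t (hsub ht)]
      nlinarith
    · refine le_trans ?_ (neg_le_abs _)
      rw [← intervalIntegral.integral_neg]
      refine intervalIntegral.integral_mono_on hR i1 i2.neg fun t ht => ?_
      have h1 := hb t ht
      rw [abs_of_neg (h ht)] at h1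
      have p2 : 0 < t ^ s := Real.rpow_pos_of_pos (hsub ht) _
      rw [e2 t (hsub ht)]
      nlinarith
  have k2 := pow_le_pow_left₀ (mul_nonneg hwp.le hJ) key 2
  rw [mul_pow, hw2, sq_abs, div_mul_eq_mul_div, div_le_iff₀ (by positivity)] at k2
  linarith

/-- the pair density is controlled by the regular component -/
theorem pairD_le (c : Ch γ k s p q) (hk : 2 ≤ k) (hγ1 : γ ≤ 1) (hE : 0 < E) (hE1 : E ≤ 1)
    (hl : Lad s (γ * E / s) ((E * k + s) / s) (-(E * k - s) / s) x y) (hB : 0 ≤ E * k - s)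
    {r : ℝ} (hr : 0 < r) (hρ : γ * r ≤ 1) : pairD γ k s E x y r ≤ 9 * k ^ 2 * x r ^ 2 := by
  have hs := c.spos
  have hγ := c.γpos
  have h2 := c.s_lower hk hγ1
  have hA : 0 < E * k + s := by linarith
  have hR : r ≤ 3 / (2 * γ) := by rw [le_div_iff₀ (by positivity)]; linarith
  have hric := hl.riccati (c.theta_ok hk hγ1 hE hE1)
  have hxy : ∀ t ∈ Ioc 0 r, -(x t * y t) ≤ s / (E * k + s) * (γ ^ 2 / 7 * t * x t ^ 2) := by
    intro t ht
    have := hric t ⟨ht.1, ht.2.trans hR⟩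
    rw [div_mul_eq_mul_div, le_div_iff₀ hA]
    have h3 := mul_nonneg hs.le this
    have e : s * (γ ^ 2 / 7 * t * x t ^ 2 + (E * k + s) / s * (x t * y t))
        = s * (γ ^ 2 / 7 * t * x t ^ 2) + (E * k + s) * (x t * y t) := by field_simp
    linarith
  have hxx : ∀ t ∈ Ioc 0 r, x t ^ 2 ≤ 8 * x r ^ 2 := fun t ht => by
    have h1 := c.compare hk hγ1 hE hE1 hl ht.1 ht.2 hR
    have p1 : 0 < r ^ (2 * s) := Real.rpow_pos_of_pos hr _
    have p2 : t ^ (2 * s) ≤ r ^ (2 * s) := Real.rpow_le_rpow ht.1.le ht.2 (by positivity)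
    have : x t ^ 2 * r ^ (2 * s) ≤ 8 * x r ^ 2 * r ^ (2 * s) := by nlinarith [sq_nonneg (x r)]
    exact le_of_mul_le_mul_right this p1
  set C := (E * k - s) / (E * k + s) * (γ ^ 2 / 7) * (8 * x r ^ 2) with hC
  have hy := nonneg_of_deriv' (f := fun t => C * t ^ 2 - y t ^ 2)
    (f' := fun t => 2 * C * t + 2 * (s / t - γ * E / s) * y t ^ 2
      + 2 * ((E * k - s) / s) * (x t * y t)) (R := r)
    (fun t ht => ((((hasDerivAt_id' t).fun_pow 2).const_mul C).fun_sub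
      ((hl.dy t ht).fun_pow 2)).congr_deriv (by push_cast; ring))
    (fun t ht => by
      have t0 := ht.1
      have a1 : 0 ≤ s / t - γ * E / s := by
        rw [sub_nonneg, div_le_div_iff₀ hs t0]
        have : γ * t ≤ 1 := le_trans (mul_le_mul_of_nonneg_left ht.2 hγ.le) hρ
        nlinarith [mul_pos hγ t0]
      have a2 := mul_le_mul_of_nonneg_left (hxy t ht) (div_nonneg hB hs.le)
      have a3 : (E * k - s) / s * (s / (E * k + s) * (γ ^ 2 / 7 * t * x t ^ 2))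
          = (E * k - s) / (E * k + s) * (γ ^ 2 / 7) * x t ^ 2 * t := by field_simp
      have a4 : (E * k - s) / (E * k + s) * (γ ^ 2 / 7) * x t ^ 2 * t ≤ C * t :=
        mul_le_mul_of_nonneg_right (mul_le_mul_of_nonneg_left (hxx t ht) (by positivity)) t0.le
      nlinarith [mul_nonneg a1 (sq_nonneg (y t))])
    (by
      have i1 : IntegrableOn (fun t : ℝ => C * t) (Ioo 0 r) :=
        ((continuous_const.mul continuous_id).integrableOn_Icc (a := 0) (b := r)).mono_set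
          Ioo_subset_Icc_self
      refine IntegrableOn.congr_fun (i1.sub (hl.ay.pot.mono_set Ioo_subset_Ioi_self))
        (fun t ht => ?_) measurableSet_Ioo
      have := ht.1.ne'
      simp only [Pi.sub_apply]
      field_simp) r ⟨hr, le_rfl⟩
  have g2 : γ ^ 2 * r ^ 2 ≤ 1 := by nlinarith [mul_pos hγ hr]
  have b1 : y r ^ 2 / (E * k - s) ≤ 2 * x r ^ 2 / (E * k + s) := by
    rcases hB.eq_or_lt with hB | hB
    · rw [← hB, div_zero]; positivity
    · rw [div_le_iff₀ hB]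
      have : C * r ^ 2 ≤ 2 * x r ^ 2 / (E * k + s) * (E * k - s) := by
        have e : C * r ^ 2 = x r ^ 2 / (E * k + s) * (E * k - s) * (8 / 7 * (γ ^ 2 * r ^ 2)) := by
          rw [hC]; field_simp
        have e' : 2 * x r ^ 2 / (E * k + s) * (E * k - s)
            = x r ^ 2 / (E * k + s) * (E * k - s) * 2 := by ring
        rw [e, e']
        exact mul_le_mul_of_nonneg_left (by linarith) (by positivity)
      linarith
  have b2 : -(x r * y r) ≤ x r ^ 2 / 7 * (γ ^ 2 * r) := by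
    refine (hxy r ⟨hr, le_rfl⟩).trans ?_
    have : s / (E * k + s) ≤ 1 := by rw [div_le_one hA]; nlinarith
    calc s / (E * k + s) * (γ ^ 2 / 7 * r * x r ^ 2) ≤ 1 * (γ ^ 2 / 7 * r * x r ^ 2) :=
          mul_le_mul_of_nonneg_right this (by positivity)
      _ = _ := by ring
  have b3 : x r ^ 2 / (E * k + s) ≤ x r ^ 2 / 3 :=
    div_le_div_of_nonneg_left (sq_nonneg _) (by norm_num) (by linarith)
  have b4 : x r ^ 2 / (E * k + s) + y r ^ 2 / (E * k - s) ≤ x r ^ 2 := by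
    have : 2 * x r ^ 2 / (E * k + s) = 2 * (x r ^ 2 / (E * k + s)) := by ring
    linarith
  have b5 : 4 * E * k ^ 2 * (x r ^ 2 / (E * k + s) + y r ^ 2 / (E * k - s))
      ≤ 4 * k ^ 2 * x r ^ 2 := by
    have h0 : 0 ≤ x r ^ 2 / (E * k + s) + y r ^ 2 / (E * k - s) := by positivity
    exact mul_le_mul (by nlinarith [sq_nonneg k]) b4 h0 (by positivity)
  have b6 : γ * (γ ^ 2 * r) ≤ 1 := by nlinarith [mul_pos hγ hr]
  have b7 : γ * -(x r * y r) ≤ x r ^ 2 / 7 := by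
    calc γ * -(x r * y r) ≤ γ * (x r ^ 2 / 7 * (γ ^ 2 * r)) := mul_le_mul_of_nonneg_left b2 hγ.le
      _ = x r ^ 2 / 7 * (γ * (γ ^ 2 * r)) := by ring
      _ ≤ x r ^ 2 / 7 * 1 := mul_le_mul_of_nonneg_left b6 (by positivity)
      _ = _ := mul_one _
  rw [pairD]
  have : 4 * x r ^ 2 ≤ k ^ 2 * x r ^ 2 := mul_le_mul_of_nonneg_right (by nlinarith) (sq_nonneg _)
  nlinarith [sq_nonneg (x r)]

end Ch

end Pool.Agent.Lib.MP_2347b2_mp
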